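import Mathlib

set_option autoImplicit false
set_option linter.unusedSectionVars false

/-! # A kernel for simultaneous approximation, with Parseval's identity -/

namespace Pool.Agent.X104.WI

open Polynomial Finset

section Kern

variable {ι : Type} [Fintype ι] [DecidableEq ι]

/-- the polynomial `∑ j, (1 + conj (u j) X^(k j))` -/
noncomputable def PP (k : ι → ℕ) (u : ι → ℂ) : ℂ[X] :=
  ∑ j : ι, (1 + monomial (k j) ((starRingEnd ℂ) (u j)))

/-- the frequency of a word -/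
def freq (k : ι → ℕ) {L : ℕ} (w : Fin L → ι × Bool) : ℕ :=
  ∑ i, if (w i).2 then k (w i).1 else 0

/-- the weight of a word -/
noncomputable def wt (u : ι → ℂ) {L : ℕ} (w : Fin L → ι × Bool) : ℂ :=
  ∏ i, if (w i).2 then (starRingEnd ℂ) (u (w i).1) else 1

/-- the multiplicities of a word -/
def mult {L : ℕ} (w : Fin L → ι × Bool) (j : ι) : ℕ :=
  (univ.filter (fun i => w i = (j, true))).card

theorem mult_le {L : ℕ} (w : Fin L → ι × Bool) (j : ι) : mult w j ≤ L := by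
  unfold mult
  exact (card_le_univ _).trans (by simp)

theorem freq_eq (k : ι → ℕ) {L : ℕ} (w : Fin L → ι × Bool) :
    freq k w = ∑ j, mult w j * k j := by
  unfold freq mult
  have h : ∀ j, (univ.filter (fun i => w i = (j, true))).card * k j =
      ∑ i : Fin L, if w i = (j, true) then k j else 0 := by
    intro j
    rw [← Finset.sum_filter, Finset.sum_const, smul_eq_mul]
  simp_rw [h]
  rw [Finset.sum_comm]
  refine Finset.sum_congr rfl fun i _ => ?_
  rcases hw : w i with ⟨j0, b⟩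
  cases b
  · simp
  · simp

theorem wt_eq (u : ι → ℂ) {L : ℕ} (w : Fin L → ι × Bool) :
    wt u w = (starRingEnd ℂ) (∏ j, u j ^ mult w j) := by
  unfold wt mult
  have h : ∀ j, u j ^ (univ.filter (fun i => w i = (j, true))).card =
      ∏ i : Fin L, if w i = (j, true) then u j else 1 := by
    intro j
    rw [← Finset.prod_filter, Finset.prod_const]
  simp_rw [h]
  rw [Finset.prod_comm, map_prod]
  refine Finset.prod_congr rfl fun i _ => ?_
  rcases hw : w i with ⟨j0, b⟩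
  cases b
  · simp
  · simp

theorem PP_pow (k : ι → ℕ) (u : ι → ℂ) (L : ℕ) :
    PP k u ^ L = ∑ w : Fin L → ι × Bool, monomial (freq k w) (wt u w) := by
  have h1 : PP k u = ∑ s : ι × Bool, monomial (if s.2 then k s.1 else 0)
      (if s.2 then (starRingEnd ℂ) (u s.1) else 1) := by
    unfold PP
    rw [Fintype.sum_prod_type]
    refine Finset.sum_congr rfl fun j _ => ?_
    rw [Fintype.sum_bool]
    simp only [if_true, Bool.false_eq_true, if_false]
    rw [add_comm]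
    congr 1
  rw [h1]
  have h2 : (∑ s : ι × Bool, (monomial (if s.2 then k s.1 else 0)
      (if s.2 then (starRingEnd ℂ) (u s.1) else 1) : ℂ[X])) ^ L =
      ∏ _i : Fin L, ∑ s : ι × Bool, monomial (if s.2 then k s.1 else 0)
      (if s.2 then (starRingEnd ℂ) (u s.1) else 1) := by
    rw [Finset.prod_const]
    simp
  rw [h2, Finset.prod_univ_sum]
  rw [Fintype.piFinset_univ]
  refine Finset.sum_congr rfl fun w _ => ?_
  unfold freq wt
  induction (univ : Finset (Fin L)) using Finset.induction_on with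
  | empty => simp
  | insert a s ha ih =>
    rw [Finset.prod_insert ha, Finset.sum_insert ha, Finset.prod_insert ha, ih, monomial_mul_monomial]

theorem coeff_PP_pow (k : ι → ℕ) (u : ι → ℂ) (L m : ℕ) :
    (PP k u ^ L).coeff m = ∑ w ∈ univ.filter (fun w : Fin L → ι × Bool => freq k w = m), wt u w := by
  rw [PP_pow, finsetSum_coeff, Finset.sum_filter]
  refine Finset.sum_congr rfl fun w _ => ?_
  rw [coeff_monomial]

/-- the relation hypothesis -/
def Rel (k : ι → ℕ) (u : ι → ℂ) (L : ℕ) : Prop :=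
  ∀ α β : ι → ℕ, (∀ j, α j ≤ L) → (∀ j, β j ≤ L) → ∑ j, α j * k j = ∑ j, β j * k j →
    ∏ j, u j ^ α j = ∏ j, u j ^ β j

theorem norm_wt {u : ι → ℂ} (hu : ∀ j, ‖u j‖ = 1) {L : ℕ} (w : Fin L → ι × Bool) :
    ‖wt u w‖ = 1 := by
  rw [wt_eq, RCLike.norm_conj, norm_prod]
  simp [hu]

theorem norm_coeff_PP_pow {k : ι → ℕ} {u : ι → ℂ} (hu : ∀ j, ‖u j‖ = 1) {L : ℕ}
    (hR : Rel k u L) (m : ℕ) :
    ‖(PP k u ^ L).coeff m‖ =
      ((univ.filter (fun w : Fin L → ι × Bool => freq k w = m)).card : ℝ) := by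
  rw [coeff_PP_pow]
  set S := univ.filter (fun w : Fin L → ι × Bool => freq k w = m) with hS
  rcases S.eq_empty_or_nonempty with h | ⟨w0, hw0⟩
  · simp [h]
  · have h1 : ∀ w ∈ S, wt u w = wt u w0 := by
      intro w hw
      rw [wt_eq, wt_eq]
      congr 1
      apply hR _ _ (mult_le w) (mult_le w0)
      rw [← freq_eq, ← freq_eq]
      rw [hS, mem_filter] at hw hw0
      rw [hw.2, hw0.2]
    rw [Finset.sum_congr rfl h1, Finset.sum_const, nsmul_eq_mul, norm_mul, norm_wt hu, mul_one]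
    simp

theorem card_image_freq (k : ι → ℕ) (L : ℕ) :
    (univ.image (fun w : Fin L → ι × Bool => freq k w)).card ≤ (L + 1) ^ Fintype.card ι := by
  have h : univ.image (fun w : Fin L → ι × Bool => freq k w) ⊆
      univ.image (fun α : ι → Fin (L + 1) => ∑ j, (α j : ℕ) * k j) := by
    intro m hm
    rw [mem_image] at *
    obtain ⟨w, -, rfl⟩ := hm
    refine ⟨fun j => ⟨mult w j, Nat.lt_succ_of_le (mult_le w j)⟩, mem_univ _, ?_⟩
    rw [freq_eq]
  refine (card_le_card h).trans (card_image_le.trans ?_)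
  simp

theorem main_lower {k : ι → ℕ} {u : ι → ℂ} (hu : ∀ j, ‖u j‖ = 1) {L : ℕ}
    (hR : Rel k u L) :
    (2 * Fintype.card ι : ℝ) ^ (2 * L) ≤ (L + 1 : ℝ) ^ Fintype.card ι *
      Real.circleAverage (fun z => ‖(PP k u).eval z‖ ^ (2 * L)) 0 1 := by
  set S := univ.image (fun w : Fin L → ι × Bool => freq k w) with hS
  have h1 : ∑ m ∈ S, ‖(PP k u ^ L).coeff m‖ = (2 * Fintype.card ι : ℝ) ^ L := by
    have h2 : ∑ m ∈ S, ‖(PP k u ^ L).coeff m‖ = ∑ m ∈ S,
        ((univ.filter (fun w : Fin L → ι × Bool => freq k w = m)).card : ℝ) :=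
      Finset.sum_congr rfl fun m _ => norm_coeff_PP_pow hu hR m
    rw [h2, ← Nat.cast_sum, ← Finset.card_eq_sum_card_fiberwise]
    · simp
      ring
    · intro w hw
      rw [hS]
      exact mem_coe.2 (mem_image_of_mem _ (mem_univ _))
  have h4 : (∑ m ∈ S, ‖(PP k u ^ L).coeff m‖) ^ 2 ≤ (S.card : ℝ) *
      ∑ m ∈ S, ‖(PP k u ^ L).coeff m‖ ^ 2 := sq_sum_le_card_mul_sum_sq
  have h5 : ∑ m ∈ S, ‖(PP k u ^ L).coeff m‖ ^ 2 ≤
      ∑ m ∈ (PP k u ^ L).support, ‖(PP k u ^ L).coeff m‖ ^ 2 := by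
    have e : ∑ m ∈ S, ‖(PP k u ^ L).coeff m‖ ^ 2 =
        ∑ m ∈ S.filter (fun m => (PP k u ^ L).coeff m ≠ 0), ‖(PP k u ^ L).coeff m‖ ^ 2 := by
      rw [Finset.sum_filter]
      refine Finset.sum_congr rfl fun m _ => ?_
      split_ifs with h
      · rfl
      · push Not at h
        simp [h]
    rw [e]
    apply Finset.sum_le_sum_of_subset_of_nonneg
    · intro m hm
      rw [mem_filter] at hm
      exact mem_support_iff.2 hm.2
    · intro _ _ _
      positivity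
  rw [sum_sq_norm_coeff_eq_circleAverage] at h5
  have h6 : (fun z => ‖(PP k u ^ L).eval z‖ ^ 2) = fun z => ‖(PP k u).eval z‖ ^ (2 * L) := by
    funext z
    rw [eval_pow, norm_pow, ← pow_mul, mul_comm]
  rw [h6] at h5
  have h7 : (S.card : ℝ) ≤ (L + 1 : ℝ) ^ Fintype.card ι := by exact_mod_cast card_image_freq k L
  have h8 : 0 ≤ Real.circleAverage (fun z => ‖(PP k u).eval z‖ ^ (2 * L)) 0 1 :=
    Real.circleAverage_nonneg_of_nonneg (fun _ _ => by positivity)
  calc (2 * Fintype.card ι : ℝ) ^ (2 * L) = ((2 * Fintype.card ι : ℝ) ^ L) ^ 2 := by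
        rw [← pow_mul, mul_comm L 2]
    _ = (∑ m ∈ S, ‖(PP k u ^ L).coeff m‖) ^ 2 := by rw [h1]
    _ ≤ (S.card : ℝ) * ∑ m ∈ S, ‖(PP k u ^ L).coeff m‖ ^ 2 := h4
    _ ≤ (L + 1 : ℝ) ^ Fintype.card ι *
      Real.circleAverage (fun z => ‖(PP k u).eval z‖ ^ (2 * L)) 0 1 :=
        mul_le_mul h7 h5 (by positivity) (by positivity)

/-- the pointwise upper bound -/
theorem eval_PP_le {k : ι → ℕ} {u : ι → ℂ} (hu : ∀ j, ‖u j‖ = 1) {z : ℂ} (hz : ‖z‖ = 1) :
    ‖(PP k u).eval z‖ ≤ 2 * Fintype.card ι := by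
  unfold PP
  rw [eval_finsetSum]
  refine (norm_sum_le _ _).trans ?_
  have : ∀ j ∈ (univ : Finset ι),
      ‖(1 + monomial (k j) ((starRingEnd ℂ) (u j)) : ℂ[X]).eval z‖ ≤ 2 := by
    intro j _
    rw [eval_add, eval_one, eval_monomial]
    refine (norm_add_le _ _).trans ?_
    rw [norm_mul, norm_pow, hz, RCLike.norm_conj, hu]
    norm_num
  refine (Finset.sum_le_sum this).trans ?_
  rw [Finset.sum_const, nsmul_eq_mul, card_univ, mul_comm]

theorem eval_PP_far {k : ι → ℕ} {u : ι → ℂ} (hu : ∀ j, ‖u j‖ = 1) {z : ℂ} (hz : ‖z‖ = 1)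
    {ε : ℝ} (hε : 0 < ε) {j0 : ι} (hj : ε ≤ ‖z ^ k j0 - u j0‖) :
    ‖(PP k u).eval z‖ ≤ 2 * Fintype.card ι - ε ^ 2 / 4 := by
  have h0 : ‖(1 + monomial (k j0) ((starRingEnd ℂ) (u j0)) : ℂ[X]).eval z‖ ≤ 2 - ε ^ 2 / 4 := by
    rw [eval_add, eval_one, eval_monomial]
    set w : ℂ := (starRingEnd ℂ) (u j0) * z ^ k j0 with hw
    have hwn : ‖w‖ = 1 := by rw [hw, norm_mul, norm_pow, hz, RCLike.norm_conj, hu]; simp
    have hd : ‖1 - w‖ = ‖z ^ k j0 - u j0‖ := by
      have e1 : u j0 * (starRingEnd ℂ) (u j0) = 1 := by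
        rw [Complex.mul_conj, Complex.normSq_eq_norm_sq, hu]; simp
      have e2 : (starRingEnd ℂ) (u j0) * (u j0 - z ^ k j0) = 1 - w := by
        rw [hw]; linear_combination e1
      rw [← e2, norm_mul, RCLike.norm_conj, hu, one_mul, norm_sub_rev]
    have hpar : ‖1 + w‖ ^ 2 + ‖1 - w‖ ^ 2 = 4 := by
      have := parallelogram_law_with_norm ℝ (1 : ℂ) w
      rw [norm_one, hwn] at this
      nlinarith
    have h1 : ε ^ 2 ≤ ‖1 - w‖ ^ 2 := by
      rw [hd]; gcongr
    have h2 : ‖1 + w‖ ≤ 2 - ε ^ 2 / 4 := by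
      have h3 : ε ^ 2 ≤ 4 := by nlinarith [sq_nonneg ‖1 + w‖]
      have h4 : ‖1 + w‖ ^ 2 ≤ (2 - ε ^ 2 / 4) ^ 2 := by nlinarith [sq_nonneg (ε ^ 2)]
      exact le_of_sq_le_sq h4 (by linarith)
    exact h2
  unfold PP
  rw [eval_finsetSum, ← Finset.add_sum_erase _ _ (mem_univ j0)]
  refine (norm_add_le _ _).trans ?_
  have h1 : ‖∑ x ∈ univ.erase j0, (1 + monomial (k x) ((starRingEnd ℂ) (u x)) : ℂ[X]).eval z‖ ≤
      2 * (Fintype.card ι - 1) := by
    refine (norm_sum_le _ _).trans ?_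
    have : ∀ j ∈ (univ.erase j0 : Finset ι),
        ‖(1 + monomial (k j) ((starRingEnd ℂ) (u j)) : ℂ[X]).eval z‖ ≤ 2 := by
      intro j _
      rw [eval_add, eval_one, eval_monomial]
      refine (norm_add_le _ _).trans ?_
      rw [norm_mul, norm_pow, hz, RCLike.norm_conj, hu]
      norm_num
    refine (Finset.sum_le_sum this).trans ?_
    rw [Finset.sum_const, nsmul_eq_mul, card_erase_of_mem (mem_univ j0), card_univ, mul_comm]
    have hc : 1 ≤ Fintype.card ι := Fintype.card_pos_iff.2 ⟨j0⟩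
    rw [Nat.cast_sub hc]
    simp
  linarith

/-- **Simultaneous approximation.** -/
theorem kronecker [Nonempty ι] {k : ι → ℕ} {u : ι → ℂ} (hu : ∀ j, ‖u j‖ = 1) {L : ℕ}
    (hR : Rel k u L) {ε : ℝ} (hε : 0 < ε)
    (hL : (L + 1 : ℝ) ^ Fintype.card ι * (1 - ε ^ 2 / (8 * Fintype.card ι)) ^ (2 * L) < 1) :
    ∃ z : ℂ, ‖z‖ = 1 ∧ ∀ j, ‖z ^ k j - u j‖ < ε := by
  by_contra hcon
  push Not at hcon
  have hN : (1 : ℝ) ≤ Fintype.card ι := by exact_mod_cast Fintype.card_pos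
  have h1 := main_lower hu hR
  have h2 : Real.circleAverage (fun z => ‖(PP k u).eval z‖ ^ (2 * L)) 0 1 ≤
      (2 * Fintype.card ι - ε ^ 2 / 4) ^ (2 * L) := by
    apply Real.circleAverage_mono_on_of_le_circle
    · apply ContinuousOn.circleIntegrable (by norm_num)
      fun_prop
    · intro z hz
      have hz1 : ‖z‖ = 1 := by simpa using hz
      obtain ⟨j, hj⟩ := hcon z hz1
      exact pow_le_pow_left₀ (norm_nonneg _) (eval_PP_far hu hz1 hε hj) _
  have h3 : (2 * Fintype.card ι - ε ^ 2 / 4 : ℝ) =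
      2 * Fintype.card ι * (1 - ε ^ 2 / (8 * Fintype.card ι)) := by
    field_simp
    ring
  have h4 : (0 : ℝ) < (2 * Fintype.card ι : ℝ) ^ (2 * L) := by positivity
  have h5 : (2 * Fintype.card ι : ℝ) ^ (2 * L) ≤ (2 * Fintype.card ι : ℝ) ^ (2 * L) *
      ((L + 1 : ℝ) ^ Fintype.card ι * (1 - ε ^ 2 / (8 * Fintype.card ι)) ^ (2 * L)) := by
    refine h1.trans ?_
    rw [h3, mul_pow] at h2
    calc _ ≤ (L + 1 : ℝ) ^ Fintype.card ι * ((2 * Fintype.card ι : ℝ) ^ (2 * L) *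
        (1 - ε ^ 2 / (8 * Fintype.card ι)) ^ (2 * L)) := by gcongr
      _ = _ := by ring
  nlinarith

end Kern

end Pool.Agent.X104.WI
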