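import Mathlib
import Pool.Agent.X104.WI.Kern

set_option autoImplicit false
set_option linter.unusedSectionVars false

namespace Pool.Agent.X104.WI

open Polynomial Finset Filter Topology

/-- the Wiener norm of a polynomial -/
noncomputable def l1 (p : ℂ[X]) : ℝ := ∑ i ∈ p.support, ‖p.coeff i‖

theorem l1_eq_sum {p : ℂ[X]} {S : Finset ℕ} (h : p.support ⊆ S) : l1 p = ∑ i ∈ S, ‖p.coeff i‖ := by
  unfold l1
  apply Finset.sum_subset h
  intro i _ hi
  rw [notMem_support_iff.1 hi, norm_zero]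

theorem norm_eval_le_l1 (p : ℂ[X]) {z : ℂ} (hz : ‖z‖ ≤ 1) : ‖p.eval z‖ ≤ l1 p := by
  rw [eval_eq_sum, Polynomial.sum, l1]
  refine (norm_sum_le _ _).trans (Finset.sum_le_sum fun i _ => ?_)
  rw [norm_mul, norm_pow]
  have : ‖z‖ ^ i ≤ 1 := pow_le_one₀ (norm_nonneg _) hz
  nlinarith [norm_nonneg (p.coeff i)]

theorem exists_L (N : ℕ) {r ε : ℝ} (hr0 : 0 ≤ r) (hr1 : r < 1) (hε : 0 < ε) :
    ∃ L : ℕ, (L + 1 : ℝ) ^ N * r ^ (2 * L) < ε := by
  have h1 : Tendsto (fun n : ℕ => (n : ℝ) ^ N * (r ^ 2) ^ n) atTop (𝓝 0) := by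
    apply tendsto_pow_const_mul_const_pow_of_abs_lt_one
    rw [abs_of_nonneg (by positivity)]
    nlinarith
  by_cases h0 : r = 0
  · refine ⟨1, ?_⟩
    rw [h0]
    simpa using hε
  · have hr2 : 0 < r ^ 2 := by positivity
    have h2 := (tendsto_add_atTop_iff_nat 1).2 h1
    have h3 : Tendsto (fun n : ℕ => ((n : ℝ) + 1) ^ N * r ^ (2 * n)) atTop (𝓝 0) := by
      have h4 := h2.mul_const (r ^ 2)⁻¹
      rw [zero_mul] at h4
      refine h4.congr fun n => ?_
      push_cast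
      rw [pow_succ, pow_mul]
      field_simp
    exact (h3.eventually (gt_mem_nhds hε)).exists

theorem avg_comp_le {p : ℂ[X]} {z : ℂ} (hz : ‖z‖ ≤ 1) {e : ℝ} (he : ∀ i, ‖p.coeff i‖ ≤ e)
    (hp : l1 p ≤ 1) (he0 : 0 ≤ e) :
    Real.circleAverage (fun w => ‖p.eval (z * w)‖ ^ 2) 0 1 ≤ e := by
  have h1 := sum_sq_norm_coeff_eq_circleAverage (p.comp (C z * X))
  have h2 : (fun w => ‖(p.comp (C z * X)).eval w‖ ^ 2) = fun w => ‖p.eval (z * w)‖ ^ 2 := by
    funext w
    simp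
  rw [h2] at h1
  rw [← h1]
  have h3 : ∀ i, ‖(p.comp (C z * X)).coeff i‖ ^ 2 ≤ e * ‖p.coeff i‖ := by
    intro i
    rw [comp_C_mul_X_coeff, norm_mul, norm_pow]
    have h4 : ‖z‖ ^ i ≤ 1 := pow_le_one₀ (norm_nonneg _) hz
    have h5 : 0 ≤ ‖z‖ ^ i := by positivity
    have h6 := he i
    have h7 := norm_nonneg (p.coeff i)
    have h8 : ‖p.coeff i‖ * ‖z‖ ^ i ≤ ‖p.coeff i‖ := by nlinarith
    have h9 : 0 ≤ ‖p.coeff i‖ * ‖z‖ ^ i := by positivity
    calc (‖p.coeff i‖ * ‖z‖ ^ i) ^ 2 ≤ ‖p.coeff i‖ ^ 2 := pow_le_pow_left₀ h9 h8 2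
      _ ≤ e * ‖p.coeff i‖ := by nlinarith
  have h10 : (p.comp (C z * X)).support ⊆ p.support := by
    intro i hi
    rw [mem_support_iff, comp_C_mul_X_coeff] at hi
    exact mem_support_iff.2 (left_ne_zero_of_mul hi)
  calc ∑ i ∈ (p.comp (C z * X)).support, ‖(p.comp (C z * X)).coeff i‖ ^ 2
      ≤ ∑ i ∈ (p.comp (C z * X)).support, e * ‖p.coeff i‖ := Finset.sum_le_sum fun i _ => h3 i
    _ ≤ ∑ i ∈ p.support, e * ‖p.coeff i‖ :=
        Finset.sum_le_sum_of_subset_of_nonneg h10 fun _ _ _ => by positivity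
    _ = e * l1 p := by rw [l1, Finset.mul_sum]
    _ ≤ e := by nlinarith

/-- **Lower bound for the part with large coefficients.** -/
theorem exists_eps (N : ℕ) (hN : 1 ≤ N) {η : ℝ} (hη : 0 < η) (hη1 : η ≤ 1) :
    ∃ e : ℝ, 0 < e ∧ ∀ (k : Fin N → ℕ) (d : Fin N → ℂ) (Mp Cp : ℂ[X]) (δ : ℝ),
      ∑ j, ‖d j‖ ≤ 1 → l1 Mp ≤ η → l1 Cp ≤ 1 → (∀ i, ‖Cp.coeff i‖ ≤ e) →
      (∀ z : ℂ, ‖z‖ ≤ 1 → δ ≤ ‖((∑ j, monomial (k j) (d j)) + Mp + Cp).eval z‖) →
      ∀ z : ℂ, ‖z‖ ≤ 1 → δ - 4 * η ≤ ‖(∑ j, monomial (k j) (d j) : ℂ[X]).eval z‖ := by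
  have hN' : (1 : ℝ) ≤ N := by exact_mod_cast hN
  have : Nonempty (Fin N) := ⟨⟨0, hN⟩⟩
  set r : ℝ := 1 - η ^ 2 / (8 * N) with hr
  have hr8 : η ^ 2 / (8 * N) ≤ 1 / 8 := by
    rw [div_le_div_iff₀ (by positivity) (by norm_num)]
    nlinarith
  have hr8' : 0 < η ^ 2 / (8 * N) := by positivity
  obtain ⟨L, hL⟩ := exists_L N (r := r) (by linarith) (by linarith) (by linarith : 0 < η / 2)
  set B : ℝ := (L + 1 : ℝ) ^ N with hB
  have hB0 : 0 < B := by positivity
  set t : ℝ := η / (4 * B) with ht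
  have ht0 : 0 < t := by positivity
  refine ⟨t ^ 2, by positivity, ?_⟩
  intro k d Mp Cp δ hd hM hC hCe hδ z hz
  set D : ℂ[X] := ∑ j, monomial (k j) (d j) with hD
  set P : ℂ[X] := PP k (fun _ => 1) with hP
  have hu : ∀ j : Fin N, ‖(1 : ℂ)‖ = 1 := fun _ => norm_one
  have hrel : Rel k (fun _ => (1 : ℂ)) L := fun α β _ _ _ => by simp
  have hlow := main_lower hu hrel
  simp only [Fintype.card_fin] at hlow
  have hNp : (0 : ℝ) < (2 * N : ℝ) ^ (2 * L) := by positivity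
  set G : ℂ → ℝ := fun w => ‖P.eval w‖ ^ (2 * L) / (2 * N : ℝ) ^ (2 * L) with hG
  have hG0 : ∀ w, 0 ≤ G w := fun w => by positivity
  have hG1 : ∀ w : ℂ, ‖w‖ = 1 → G w ≤ 1 := by
    intro w hw
    simp only [hG]
    rw [div_le_one hNp]
    have := eval_PP_le (k := k) hu hw
    simp only [Fintype.card_fin] at this
    exact pow_le_pow_left₀ (norm_nonneg _) this _
  have hGavg : 1 ≤ B * Real.circleAverage G 0 1 := by
    have e : Real.circleAverage G 0 1 =
        Real.circleAverage (fun w => ‖P.eval w‖ ^ (2 * L)) 0 1 / (2 * N : ℝ) ^ (2 * L) := by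
      have : G = fun w => ((2 * N : ℝ) ^ (2 * L))⁻¹ • (‖P.eval w‖ ^ (2 * L)) := by
        funext w
        simp only [hG, smul_eq_mul]
        field_simp
      rw [this, Real.circleAverage_fun_smul, smul_eq_mul]
      field_simp
    rw [e, ← mul_div_assoc, le_div_iff₀ hNp, one_mul]
    exact hlow
  -- the pointwise inequality
  have hpt : ∀ w : ℂ, ‖w‖ = 1 → δ * G w ≤
      (‖D.eval z‖ + 2 * η) * G w + (2 * r ^ (2 * L) + t) + t⁻¹ * ‖Cp.eval (z * w)‖ ^ 2 := by
    intro w hw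
    have hzw : ‖z * w‖ ≤ 1 := by rw [norm_mul, hw, mul_one]; exact hz
    have a1 := hδ (z * w) hzw
    rw [eval_add, eval_add] at a1
    have a2 : ‖Mp.eval (z * w)‖ ≤ η := (norm_eval_le_l1 Mp hzw).trans hM
    set Δ : ℝ := ∑ j, ‖d j‖ * ‖w ^ k j - 1‖ with hΔ
    have a3 : ‖D.eval (z * w)‖ ≤ ‖D.eval z‖ + Δ := by
      have e1 : D.eval (z * w) = D.eval z + ∑ j, d j * z ^ k j * (w ^ k j - 1) := by
        rw [hD, eval_finsetSum, eval_finsetSum, ← Finset.sum_add_distrib]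
        refine Finset.sum_congr rfl fun j _ => ?_
        rw [eval_monomial, eval_monomial, mul_pow]
        ring
      rw [e1]
      refine (norm_add_le _ _).trans (add_le_add le_rfl ?_)
      refine (norm_sum_le _ _).trans (Finset.sum_le_sum fun j _ => ?_)
      rw [norm_mul, norm_mul, norm_pow]
      have : ‖z‖ ^ k j ≤ 1 := pow_le_one₀ (norm_nonneg _) hz
      have h2 : ‖d j‖ * ‖z‖ ^ k j ≤ ‖d j‖ := by nlinarith [norm_nonneg (d j)]
      exact mul_le_mul_of_nonneg_right h2 (norm_nonneg _)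
    have a4 : G w * Δ ≤ η * G w + 2 * r ^ (2 * L) := by
      by_cases hall : ∀ j, ‖w ^ k j - 1‖ < η
      · have : Δ ≤ η := by
          calc Δ ≤ ∑ j, ‖d j‖ * η := Finset.sum_le_sum fun j _ =>
                mul_le_mul_of_nonneg_left (hall j).le (norm_nonneg _)
            _ = (∑ j, ‖d j‖) * η := by rw [Finset.sum_mul]
            _ ≤ η := by nlinarith
        have h2 : 0 ≤ r ^ (2 * L) := by
          have : 0 ≤ r := by linarith
          positivity
        nlinarith [hG0 w]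
      · push Not at hall
        obtain ⟨j0, hj0⟩ := hall
        have h1 := eval_PP_far (k := k) hu hw hη hj0
        simp only [Fintype.card_fin] at h1
        have h2 : (2 * N - η ^ 2 / 4 : ℝ) = 2 * N * r := by
          rw [hr]
          field_simp
          ring
        have h3 : G w ≤ r ^ (2 * L) := by
          simp only [hG]
          rw [div_le_iff₀ hNp, ← mul_pow]
          have := pow_le_pow_left₀ (norm_nonneg _) (h1.trans (le_of_eq h2)) (2 * L)
          rw [mul_comm r]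
          exact this
        have h4 : Δ ≤ 2 := by
          calc Δ ≤ ∑ j, ‖d j‖ * 2 := Finset.sum_le_sum fun j _ => by
                refine mul_le_mul_of_nonneg_left ?_ (norm_nonneg _)
                refine (norm_sub_le _ _).trans ?_
                rw [norm_pow, hw, norm_one]
                norm_num
            _ = (∑ j, ‖d j‖) * 2 := by rw [Finset.sum_mul]
            _ ≤ 2 := by linarith
        have h5 : 0 ≤ Δ := Finset.sum_nonneg fun j _ => by positivity
        nlinarith [hG0 w]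
    have a5 : ‖Cp.eval (z * w)‖ ≤ t + t⁻¹ * ‖Cp.eval (z * w)‖ ^ 2 := by
      set x := ‖Cp.eval (z * w)‖
      have h1 : 0 ≤ t⁻¹ * (x - t) ^ 2 := by positivity
      have h2 : t⁻¹ * (x - t) ^ 2 = t⁻¹ * x ^ 2 - 2 * x + t := by
        field_simp
        ring
      have : 0 ≤ x := norm_nonneg _
      linarith
    have a6 : δ ≤ ‖D.eval z‖ + Δ + η + (t + t⁻¹ * ‖Cp.eval (z * w)‖ ^ 2) := by
      have h1 := norm_add₃_le (a := D.eval (z * w)) (b := Mp.eval (z * w)) (c := Cp.eval (z * w))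
      linarith
    have a7 := mul_le_mul_of_nonneg_right a6 (hG0 w)
    have a8 := hG1 w hw
    have a9 : 0 ≤ t + t⁻¹ * ‖Cp.eval (z * w)‖ ^ 2 := by positivity
    nlinarith [hG0 w]
  -- averaging
  have hcG : Continuous G := by
    simp only [hG]
    fun_prop
  have hcC : Continuous (fun w => ‖Cp.eval (z * w)‖ ^ 2) := by fun_prop
  have ci : ∀ {f : ℂ → ℝ}, Continuous f → CircleIntegrable f 0 1 := fun hf =>
    hf.continuousOn.circleIntegrable (by norm_num)
  have havg : δ * Real.circleAverage G 0 1 ≤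
      (‖D.eval z‖ + 2 * η) * Real.circleAverage G 0 1 + (2 * r ^ (2 * L) + t) +
        t⁻¹ * Real.circleAverage (fun w => ‖Cp.eval (z * w)‖ ^ 2) 0 1 := by
    have e1 : Real.circleAverage (fun w => δ • G w) 0 1 = δ * Real.circleAverage G 0 1 := by
      rw [Real.circleAverage_fun_smul, smul_eq_mul]
    have e2 : Real.circleAverage (fun w => (((‖D.eval z‖ + 2 * η) • G w +
        (2 * r ^ (2 * L) + t)) + t⁻¹ • ‖Cp.eval (z * w)‖ ^ 2)) 0 1 =
        (‖D.eval z‖ + 2 * η) * Real.circleAverage G 0 1 + (2 * r ^ (2 * L) + t) +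
        t⁻¹ * Real.circleAverage (fun w => ‖Cp.eval (z * w)‖ ^ 2) 0 1 := by
      rw [Real.circleAverage_fun_add (ci (by fun_prop)) (ci (by fun_prop)),
        Real.circleAverage_fun_add (ci (by fun_prop)) (ci (by fun_prop)),
        Real.circleAverage_fun_smul, Real.circleAverage_fun_smul, Real.circleAverage_const,
        smul_eq_mul, smul_eq_mul]
    rw [← e1, ← e2]
    apply Real.circleAverage_mono (ci (by fun_prop)) (ci (by fun_prop))
    intro w hw
    simp only [smul_eq_mul]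
    exact hpt w (by simpa using hw)
  have hCavg := avg_comp_le hz hCe hC (by positivity)
  have hfin : (δ - ‖D.eval z‖ - 2 * η) * Real.circleAverage G 0 1 ≤ 2 * r ^ (2 * L) + 2 * t := by
    have h1 : t⁻¹ * Real.circleAverage (fun w => ‖Cp.eval (z * w)‖ ^ 2) 0 1 ≤ t⁻¹ * t ^ 2 :=
      mul_le_mul_of_nonneg_left hCavg (by positivity)
    have h2 : t⁻¹ * t ^ 2 = t := by field_simp
    linarith
  by_contra hcon
  push Not at hcon
  set Y : ℝ := δ - ‖D.eval z‖ - 2 * η with hY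
  have hY2 : 2 * η < Y := by linarith
  have hs : B * (2 * r ^ (2 * L) + 2 * t) < 2 * η := by
    have h1 : B * t = η / 4 := by
      rw [ht]
      field_simp
    have h2 : B * r ^ (2 * L) < η / 2 := hL
    nlinarith
  have h3 : Y ≤ Y * (B * Real.circleAverage G 0 1) :=
    le_mul_of_one_le_right (by linarith) hGavg
  have h4 : Y * (B * Real.circleAverage G 0 1) ≤ B * (2 * r ^ (2 * L) + 2 * t) := by
    have := mul_le_mul_of_nonneg_left hfin hB0.le
    calc Y * (B * Real.circleAverage G 0 1) = B * (Y * Real.circleAverage G 0 1) := by ring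
      _ ≤ _ := this
  linarith

end Pool.Agent.X104.WI
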