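import Mathlib
import Pool.Agent.X104.WI.Bohr

set_option autoImplicit false

/-! # The Banach algebra of absolutely convergent power series -/

namespace Pool.Agent.X104.WI

open PowerSeries

/-- The subalgebra of absolutely summable power series. -/
noncomputable def Wsub : Subalgebra ℂ (PowerSeries ℂ) where
  carrier := {p | Summable fun n => ‖coeff n p‖}
  mul_mem' := by
    intro a b ha hb
    have h := summable_norm_sum_mul_antidiagonal_of_summable_norm ha hb
    refine h.congr fun n => ?_
    rw [coeff_mul]
  add_mem' := by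
    intro a b ha hb
    refine Summable.of_nonneg_of_le (fun _ => norm_nonneg _) (fun n => ?_) (ha.add hb)
    rw [map_add]
    exact norm_add_le _ _
  algebraMap_mem' := by
    intro r
    have : (fun n => ‖coeff n (algebraMap ℂ (PowerSeries ℂ) r)‖) =
        fun n => if n = 0 then ‖r‖ else 0 := by
      funext n
      rw [PowerSeries.algebraMap_apply, coeff_C]
      split_ifs <;> simp
    show Summable fun n => ‖coeff n (algebraMap ℂ (PowerSeries ℂ) r)‖
    rw [this]
    exact (hasSum_ite_eq 0 ‖r‖).summable

/-- The algebra. -/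
def W : Type := Wsub

noncomputable instance : CommRing W := inferInstanceAs (CommRing Wsub)
noncomputable instance : Algebra ℂ W := inferInstanceAs (Algebra ℂ Wsub)

/-- the coefficients -/
noncomputable def W.co (x : W) (n : ℕ) : ℂ := coeff n x.1

theorem W.summable (x : W) : Summable fun n => ‖x.co n‖ := x.2

theorem W.ext {x y : W} (h : ∀ n, x.co n = y.co n) : x = y := by
  apply Subtype.ext
  ext n
  exact h n

/-- the linear map to `ℓ¹` -/
noncomputable def toLp : W →ₗ[ℂ] lp (fun _ : ℕ => ℂ) 1 where
  toFun x := ⟨fun n => x.co n, by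
    show Memℓp _ 1
    apply memℓp_gen
    simpa using x.summable⟩
  map_add' x y := by
    ext n
    show coeff n (x.1 + y.1) = coeff n x.1 + coeff n y.1
    rw [map_add]
  map_smul' c x := by
    ext n
    show coeff n (c • x.1) = c * coeff n x.1
    rw [PowerSeries.coeff_smul, smul_eq_mul]

theorem toLp_injective : Function.Injective toLp := by
  intro x y h
  apply W.ext
  intro n
  exact congrArg (fun f : lp (fun _ : ℕ => ℂ) 1 => f n) h

noncomputable instance : NormedAddCommGroup W :=
  NormedAddCommGroup.induced W (lp (fun _ : ℕ => ℂ) 1) toLp toLp_injective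

theorem W.norm_def (x : W) : ‖x‖ = ∑' n, ‖x.co n‖ := by
  have h1 : ‖x‖ = ‖toLp x‖ := rfl
  rw [h1, lp.norm_eq_tsum_rpow (by norm_num)]
  simp
  rfl

theorem W.co_mul (x y : W) (n : ℕ) :
    (x * y).co n = ∑ p ∈ Finset.HasAntidiagonal.antidiagonal n, x.co p.1 * y.co p.2 := by
  show coeff n (x.1 * y.1) = _
  rw [coeff_mul]
  rfl

theorem W.co_one (n : ℕ) : (1 : W).co n = if n = 0 then 1 else 0 := by
  show coeff n (1 : PowerSeries ℂ) = _
  rw [coeff_one]

theorem W.norm_mul_le (x y : W) : ‖x * y‖ ≤ ‖x‖ * ‖y‖ := by
  rw [W.norm_def, W.norm_def, W.norm_def]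
  have hx : Summable fun n => ‖‖x.co n‖‖ := by simpa using x.summable
  have hy : Summable fun n => ‖‖y.co n‖‖ := by simpa using y.summable
  rw [tsum_mul_tsum_eq_tsum_sum_antidiagonal_of_summable_norm hx hy]
  have h2 := (summable_norm_sum_mul_antidiagonal_of_summable_norm hx hy).of_norm
  refine Summable.tsum_le_tsum (fun n => ?_) (x * y).summable h2
  rw [W.co_mul]
  refine (norm_sum_le _ _).trans (le_of_eq ?_)
  refine Finset.sum_congr rfl fun p _ => ?_
  rw [norm_mul]

noncomputable instance : NormedCommRing W :=
  { (inferInstance : NormedAddCommGroup W), (inferInstance : CommRing W) with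
    norm_mul_le := W.norm_mul_le }

noncomputable instance : NormedAlgebra ℂ W where
  norm_smul_le c x := by
    have h1 : ‖c • x‖ = ‖toLp (c • x)‖ := rfl
    have h2 : ‖x‖ = ‖toLp x‖ := rfl
    rw [h1, h2, map_smul, norm_smul]

instance : NormOneClass W where
  norm_one := by
    rw [W.norm_def]
    have : (fun n => ‖(1 : W).co n‖) = fun n => if n = 0 then (1 : ℝ) else 0 := by
      funext n
      rw [W.co_one]
      split_ifs <;> simp
    rw [this, tsum_ite_eq]

theorem toLp_surjective : Function.Surjective toLp := by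
  intro f
  have hf : Summable fun n => ‖f n‖ := by
    have := lp.memℓp f
    have := (memℓp_gen_iff (by norm_num)).1 this
    simpa using this
  refine ⟨⟨PowerSeries.mk fun n => f n, ?_⟩, ?_⟩
  · show Summable fun n => ‖coeff n (PowerSeries.mk fun n => f n)‖
    simpa using hf
  · ext n
    show coeff n (PowerSeries.mk fun n => f n) = f n
    rw [coeff_mk]

instance : CompleteSpace W := by
  have hiso : Isometry toLp := AddMonoidHomClass.isometry_of_norm toLp fun _ => rfl
  rw [completeSpace_iff_isComplete_range hiso.isUniformInducing, toLp_surjective.range_eq]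
  exact isComplete_univ

/-- polynomials in the algebra -/
noncomputable def ofPoly : Polynomial ℂ →ₐ[ℂ] W :=
  (Polynomial.coeToPowerSeries.algHom ℂ).codRestrict Wsub (by
    intro p
    show Summable fun n => ‖coeff n _‖
    apply summable_of_finite_support
    apply (p.support.finite_toSet).subset
    intro n hn
    rw [Function.mem_support, norm_ne_zero_iff] at hn
    rw [Finset.mem_coe, Polynomial.mem_support_iff]
    simpa using hn)

theorem co_ofPoly (p : Polynomial ℂ) (n : ℕ) : (ofPoly p).co n = p.coeff n := by
  show coeff n (Polynomial.coeToPowerSeries.algHom ℂ p) = _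
  simp

theorem norm_ofPoly (p : Polynomial ℂ) : ‖ofPoly p‖ = l1 p := by
  rw [W.norm_def, l1]
  simp_rw [co_ofPoly]
  apply tsum_eq_sum
  intro n hn
  rw [Polynomial.notMem_support_iff.1 hn, norm_zero]

theorem norm_co_le (x : W) (n : ℕ) : ‖x.co n‖ ≤ ‖x‖ := by
  rw [W.norm_def]
  exact x.summable.le_tsum n fun _ _ => norm_nonneg _

theorem sum_co_le (x : W) (S : Finset ℕ) : ∑ n ∈ S, ‖x.co n‖ ≤ ‖x‖ := by
  rw [W.norm_def]
  exact x.summable.sum_le_tsum S fun _ _ => norm_nonneg _

end Pool.Agent.X104.WI
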