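import Mathlib
import Pool.Agent.X104.WI.Alg

set_option autoImplicit false
set_option linter.unusedSectionVars false

/-! # Characters of the algebra of bounded sequences in the Wiener algebra -/

namespace Pool.Agent.X104.WI

open Filter Topology Polynomial

/-- bounded sequences in `W` -/
abbrev AA : Type := BoundedContinuousFunction ℕ W

/-- a bounded sequence as an element of `AA` -/
noncomputable def mk (x : ℕ → W) (C : ℝ) (h : ∀ n, ‖x n‖ ≤ C) : AA :=
  BoundedContinuousFunction.ofNormedAddCommGroupDiscrete x C h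

@[simp] theorem mk_apply (x : ℕ → W) (C : ℝ) (h : ∀ n, ‖x n‖ ≤ C) (n : ℕ) : mk x C h n = x n := rfl

theorem norm_le_of {x : AA} {η : ℝ} (hη : 0 ≤ η) (h : ∀ n, ‖x n‖ ≤ η) : ‖x‖ ≤ η :=
  (BoundedContinuousFunction.norm_le hη).2 h

open Classical in
/-- the idempotent of a set -/
noncomputable def ind (E : Set ℕ) : AA :=
  mk (fun n => if n ∈ E then 1 else 0) 1 (fun n => by split_ifs <;> simp)

open Classical in
theorem ind_apply (E : Set ℕ) (n : ℕ) : ind E n = if n ∈ E then 1 else 0 := rfl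

section Char

variable (φ : AA →ₐ[ℂ] ℂ)

/-- the filter of a character -/
def UF : Filter ℕ where
  sets := {E | φ (ind E) = 1}
  univ_sets := by
    show φ (ind Set.univ) = 1
    have : ind Set.univ = 1 := by
      ext1 n
      simp [ind_apply]
    rw [this, map_one]
  sets_of_superset := by
    intro E F hE hEF
    change φ (ind E) = 1 at hE
    show φ (ind F) = 1
    have : ind E * ind F = ind E := by
      ext1 n
      rw [BoundedContinuousFunction.mul_apply, ind_apply, ind_apply]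
      by_cases h : n ∈ E
      · simp [h, hEF h]
      · simp [h]
    have h2 := congrArg φ this
    rw [map_mul, hE, one_mul] at h2
    exact h2
  inter_sets := by
    intro E F hE hF
    change φ (ind E) = 1 at hE
    change φ (ind F) = 1 at hF
    show φ (ind (E ∩ F)) = 1
    have : ind E * ind F = ind (E ∩ F) := by
      ext1 n
      rw [BoundedContinuousFunction.mul_apply, ind_apply, ind_apply, ind_apply]
      by_cases h : n ∈ E <;> by_cases h' : n ∈ F <;> simp [h, h']
    rw [← this, map_mul, hE, hF, one_mul]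

theorem mem_UF {E : Set ℕ} : E ∈ UF φ ↔ φ (ind E) = 1 := Iff.rfl

/-- the ultrafilter of a character -/
noncomputable def UU : Ultrafilter ℕ := Ultrafilter.ofComplNotMemIff (UF φ) (by
  intro E
  rw [mem_UF, mem_UF]
  have h1 : ind E + ind Eᶜ = 1 := by
    ext1 n
    rw [BoundedContinuousFunction.add_apply, ind_apply, ind_apply]
    by_cases h : n ∈ E <;> simp [h]
  have h2 : ind E * ind E = ind E := by
    ext1 n
    rw [BoundedContinuousFunction.mul_apply, ind_apply]
    by_cases h : n ∈ E <;> simp [h]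
  have h3 := congrArg φ h1
  have h4 := congrArg φ h2
  rw [map_add, map_one] at h3
  rw [map_mul] at h4
  have h5 : φ (ind E) = 0 ∨ φ (ind E) = 1 := by
    have : φ (ind E) * (φ (ind E) - 1) = 0 := by linear_combination h4
    rcases mul_eq_zero.1 this with h | h
    · exact Or.inl h
    · exact Or.inr (sub_eq_zero.1 h)
  rcases h5 with h | h
  · rw [h, zero_add] at h3
    rw [h, h3]
    simp
  · rw [h] at h3
    have : φ (ind Eᶜ) = 0 := by linear_combination h3
    rw [this, h]
    simp)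

theorem mem_UU {E : Set ℕ} : E ∈ UU φ ↔ φ (ind E) = 1 := Iff.rfl

variable {φ} (hφ : ∀ x : AA, ‖φ x‖ ≤ ‖x‖)

include hφ in
theorem norm_char_le {x : AA} {η : ℝ} (hη : 0 ≤ η) (h : ∀ᶠ n in UU φ, ‖x n‖ ≤ η) : ‖φ x‖ ≤ η := by
  have h1 : φ (ind {n | ‖x n‖ ≤ η}) = 1 := h
  have h2 : φ (ind {n | ‖x n‖ ≤ η} * x) = φ x := by rw [map_mul, h1, one_mul]
  rw [← h2]
  refine (hφ _).trans (norm_le_of hη fun n => ?_)
  rw [BoundedContinuousFunction.mul_apply, ind_apply]
  by_cases hn : n ∈ {n | ‖x n‖ ≤ η}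
  · rw [if_pos hn, one_mul]; exact hn
  · rw [if_neg hn, zero_mul, norm_zero]; exact hη

include hφ in
theorem char_congr {x y : AA} (h : ∀ᶠ n in UU φ, x n = y n) : φ x = φ y := by
  have h1 : ‖φ (x - y)‖ ≤ 0 := norm_char_le hφ le_rfl (by
    filter_upwards [h] with n hn
    rw [BoundedContinuousFunction.sub_apply, hn, sub_self, norm_zero])
  rw [map_sub] at h1
  exact sub_eq_zero.1 (norm_le_zero_iff.1 h1)

include hφ in
theorem char_smul {x y : AA} {c : ℕ → ℂ} {c0 : ℂ} (hy : ∀ n, y n = c n • x n)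
    (hc : Tendsto c (UU φ) (𝓝 c0)) : φ y = c0 * φ x := by
  have h1 : ∀ η : ℝ, 0 < η → ‖φ (y - c0 • x)‖ ≤ η := by
    intro η hη
    apply norm_char_le hφ hη.le
    have h2 : ∀ᶠ n in UU φ, ‖c n - c0‖ < η / (‖x‖ + 1) := by
      have := (Metric.tendsto_nhds.1 hc) (η / (‖x‖ + 1)) (by positivity)
      simpa [dist_eq_norm] using this
    filter_upwards [h2] with n hn
    rw [BoundedContinuousFunction.sub_apply, BoundedContinuousFunction.smul_apply, hy, ← sub_smul,
      norm_smul]
    have h3 : ‖x n‖ ≤ ‖x‖ + 1 := (x.norm_coe_le_norm n).trans (by linarith)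
    calc ‖c n - c0‖ * ‖x n‖ ≤ η / (‖x‖ + 1) * (‖x‖ + 1) :=
          mul_le_mul hn.le h3 (norm_nonneg _) (by positivity)
      _ = η := by field_simp
  have h2 : ‖φ (y - c0 • x)‖ ≤ 0 := le_of_forall_pos_le_add fun η hη => by
    rw [zero_add]; exact h1 η hη
  have h3 := norm_le_zero_iff.1 h2
  rw [map_sub, map_smul, smul_eq_mul] at h3
  exact sub_eq_zero.1 h3

end Char

theorem l1_X_pow (n : ℕ) : l1 (X ^ n : ℂ[X]) = 1 := by
  unfold l1
  rw [Polynomial.support_X_pow n]
  simp

/-- the monomial sequences -/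
noncomputable def mon (k : ℕ → ℕ) : AA :=
  mk (fun n => ofPoly (X ^ k n)) 1 (fun n => by rw [norm_ofPoly, l1_X_pow])

@[simp] theorem mon_apply (k : ℕ → ℕ) (n : ℕ) : mon k n = ofPoly (X ^ k n) := rfl

theorem mon_add (k l : ℕ → ℕ) : mon (fun n => k n + l n) = mon k * mon l := by
  ext1 n
  rw [BoundedContinuousFunction.mul_apply, mon_apply, mon_apply, mon_apply, ← map_mul, pow_add]

theorem mon_zero : mon (fun _ => 0) = 1 := by
  ext1 n
  simp

theorem mon_mul (k : ℕ → ℕ) (p : ℕ) : mon (fun n => p * k n) = mon k ^ p := by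
  induction p with
  | zero => simpa using mon_zero
  | succ p ih =>
    rw [pow_succ, ← ih, ← mon_add]
    congr 1
    funext n
    ring

theorem mon_sum {ι : Type} [Fintype ι] (k : ι → ℕ → ℕ) (α : ι → ℕ) :
    mon (fun n => ∑ j, α j * k j n) = ∏ j, mon (k j) ^ α j := by
  classical
  induction (Finset.univ : Finset ι) using Finset.induction_on with
  | empty => simpa using mon_zero
  | insert a s ha ih =>
    rw [Finset.prod_insert ha, ← ih, ← mon_mul, ← mon_add]
    congr 1
    funext n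
    rw [Finset.sum_insert ha]

theorem norm_mon_le (k : ℕ → ℕ) : ‖mon k‖ ≤ 1 :=
  norm_le_of zero_le_one fun n => by rw [mon_apply, norm_ofPoly, l1_X_pow]

section Char2

variable {φ : AA →ₐ[ℂ] ℂ} (hφ : ∀ x : AA, ‖φ x‖ ≤ ‖x‖)

include hφ in
theorem norm_char_mon_le (k : ℕ → ℕ) : ‖φ (mon k)‖ ≤ 1 := (hφ _).trans (norm_mon_le k)

include hφ in
theorem char_mono {k l : ℕ → ℕ} {p q : ℕ} (h : ∀ᶠ n in UU φ, p * k n ≤ q * l n) :
    ‖φ (mon l)‖ ^ q ≤ ‖φ (mon k)‖ ^ p := by
  have h1 : φ (mon (fun n => q * l n)) = φ (mon (fun n => p * k n + (q * l n - p * k n))) := by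
    apply char_congr hφ
    filter_upwards [h] with n hn
    rw [mon_apply, mon_apply]
    congr 2
    omega
  rw [mon_add, mon_mul, mon_mul, map_mul, map_pow, map_pow] at h1
  rw [← norm_pow, h1, norm_mul, norm_pow]
  have h2 := norm_char_mon_le hφ (fun n => q * l n - p * k n)
  have h3 : 0 ≤ ‖φ (mon k)‖ ^ p := by positivity
  nlinarith

include hφ in
theorem char_rel {ι : Type} [Fintype ι] (k : ι → ℕ → ℕ) (α β : ι → ℕ)
    (h : ∀ᶠ n in UU φ, ∑ j, α j * k j n = ∑ j, β j * k j n) :
    ∏ j, φ (mon (k j)) ^ α j = ∏ j, φ (mon (k j)) ^ β j := by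
  have h1 : φ (mon (fun n => ∑ j, α j * k j n)) = φ (mon (fun n => ∑ j, β j * k j n)) := by
    apply char_congr hφ
    filter_upwards [h] with n hn
    rw [mon_apply, mon_apply, hn]
  rw [mon_sum, mon_sum, map_prod, map_prod] at h1
  simpa using h1

end Char2

end Pool.Agent.X104.WI
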