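import Mathlib
import Pool.Agent.X104.WI.Ultra

set_option autoImplicit false
set_option linter.unusedSectionVars false

/-! # Characters on monomials are approximated by points of the disc -/

namespace Pool.Agent.X104.WI

open Filter Topology Polynomial

theorem exists_rat_pow {s a b : ℝ} (hs0 : 0 < s) (hs1 : s < 1) (ha : 0 < a) (hab : a < b)
    (hb : b ≤ 1) : ∃ p q : ℕ, 0 < q ∧ a < s ^ ((p : ℝ) / q) ∧ s ^ ((p : ℝ) / q) < b := by
  have hls : Real.log s < 0 := Real.log_neg hs0 hs1
  have hb0 : 0 < b := ha.trans hab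
  have h1 : Real.log b / Real.log s < Real.log a / Real.log s := by
    rw [div_lt_div_right_of_neg hls]
    exact Real.log_lt_log ha hab
  obtain ⟨t, ht1, ht2⟩ := exists_rat_btwn h1
  have ht0 : 0 < t := by
    have : 0 ≤ Real.log b / Real.log s :=
      div_nonneg_of_nonpos (Real.log_nonpos hb0.le hb) hls.le
    have h3 : (0 : ℝ) < t := this.trans_lt ht1
    exact_mod_cast h3
  have hnum : 0 < t.num := Rat.num_pos.2 ht0
  refine ⟨t.num.toNat, t.den, t.den_pos, ?_⟩
  have hcast : ((t.num.toNat : ℕ) : ℝ) / (t.den : ℝ) = (t : ℝ) := by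
    have h1 : ((t.num.toNat : ℕ) : ℝ) = ((t.num : ℤ) : ℝ) := by
      have : ((t.num.toNat : ℕ) : ℤ) = t.num := Int.toNat_of_nonneg hnum.le
      exact_mod_cast this
    rw [h1]
    exact (Rat.cast_def t).symm
  rw [hcast]
  constructor
  · rw [← Real.log_lt_log_iff ha (Real.rpow_pos_of_pos hs0 _), Real.log_rpow hs0]
    have := (lt_div_iff_of_neg hls).1 ht2
    linarith
  · rw [← Real.log_lt_log_iff (Real.rpow_pos_of_pos hs0 _) hb0, Real.log_rpow hs0]
    have := (div_lt_iff_of_neg hls).1 ht1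
    linarith

section Vis

variable {φ : AA →ₐ[ℂ] ℂ} (hφ : ∀ x : AA, ‖φ x‖ ≤ ‖x‖)

include hφ in
theorem modulus_aux {k l : ℕ → ℕ} (h0 : 0 < ‖φ (mon l)‖) (h1 : ‖φ (mon l)‖ < 1) {ε : ℝ}
    (hε : 0 < ε) : ∀ᶠ n in UU φ, 1 ≤ l n ∧
      |‖φ (mon l)‖ ^ ((k n : ℝ) / l n) - ‖φ (mon k)‖| < ε := by
  set s := ‖φ (mon l)‖ with hs
  set ρ := ‖φ (mon k)‖ with hρ
  have hl : ∀ᶠ n in UU φ, 1 ≤ l n := by
    by_contra hcon
    rw [← Ultrafilter.eventually_not] at hcon
    have h2 := char_mono hφ (k := l) (l := l) (p := 1) (q := 0) (by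
      filter_upwards [hcon] with n hn
      omega)
    rw [pow_zero, pow_one] at h2
    linarith
  have hy1 : ∀ n, s ^ ((k n : ℝ) / l n) ≤ 1 := fun n =>
    Real.rpow_le_one h0.le h1.le (by positivity)
  have hy0 : ∀ n, 0 < s ^ ((k n : ℝ) / l n) := fun n => Real.rpow_pos_of_pos h0 _
  have hup : ∀ᶠ n in UU φ, s ^ ((k n : ℝ) / l n) < ρ + ε := by
    by_contra hcon
    rw [← Ultrafilter.eventually_not] at hcon
    simp only [not_lt] at hcon
    obtain ⟨n0, hn0⟩ := hcon.exists
    have hρ0 : 0 ≤ ρ := norm_nonneg _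
    obtain ⟨p, q, hq, ha, hb⟩ := exists_rat_pow h0 h1 (a := ρ + ε / 2) (b := ρ + ε)
      (by positivity) (by linarith) (hn0.trans (hy1 n0))
    have hq' : (0 : ℝ) < q := by exact_mod_cast hq
    have h2 := char_mono hφ (k := k) (l := l) (p := q) (q := p) (by
      filter_upwards [hcon, hl] with n hn hln
      have hln' : (0 : ℝ) < l n := by exact_mod_cast hln
      have h3 : s ^ ((p : ℝ) / q) < s ^ ((k n : ℝ) / l n) := hb.trans_le hn
      rw [Real.rpow_lt_rpow_left_iff_of_base_lt_one h0 h1] at h3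
      rw [div_lt_div_iff₀ hln' hq'] at h3
      have : ((q * k n : ℕ) : ℝ) ≤ ((p * l n : ℕ) : ℝ) := by push_cast; linarith
      exact_mod_cast this)
    have h4 : s ^ ((p : ℝ) / q) ≤ ρ := by
      rw [div_eq_mul_inv, Real.rpow_mul h0.le, Real.rpow_natCast,
        Real.rpow_inv_le_iff_of_pos (by positivity) hρ0 hq', Real.rpow_natCast]
      exact h2
    linarith
  have hlo : ∀ᶠ n in UU φ, ρ - ε < s ^ ((k n : ℝ) / l n) := by
    by_contra hcon
    rw [← Ultrafilter.eventually_not] at hcon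
    simp only [not_lt] at hcon
    obtain ⟨n0, hn0⟩ := hcon.exists
    have hρ0 : 0 < ρ - ε := (hy0 n0).trans_le hn0
    have hρ1 : ρ ≤ 1 := norm_char_mon_le hφ k
    obtain ⟨p, q, hq, ha, hb⟩ := exists_rat_pow h0 h1 (a := ρ - ε) (b := ρ - ε / 2)
      hρ0 (by linarith) (by linarith)
    have hq' : (0 : ℝ) < q := by exact_mod_cast hq
    have h2 := char_mono hφ (k := l) (l := k) (p := p) (q := q) (by
      filter_upwards [hcon, hl] with n hn hln
      have hln' : (0 : ℝ) < l n := by exact_mod_cast hln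
      have h3 : s ^ ((k n : ℝ) / l n) < s ^ ((p : ℝ) / q) := hn.trans_lt ha
      rw [Real.rpow_lt_rpow_left_iff_of_base_lt_one h0 h1] at h3
      rw [div_lt_div_iff₀ hq' hln'] at h3
      have : ((p * l n : ℕ) : ℝ) ≤ ((q * k n : ℕ) : ℝ) := by push_cast; linarith
      exact_mod_cast this)
    have h4 : ρ ≤ s ^ ((p : ℝ) / q) := by
      rw [div_eq_mul_inv, Real.rpow_mul h0.le, Real.rpow_natCast,
        Real.le_rpow_inv_iff_of_pos (by linarith) (by positivity) hq', Real.rpow_natCast]
      exact h2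
    linarith
  filter_upwards [hl, hup, hlo] with n a1 a2 a3
  exact ⟨a1, abs_lt.2 ⟨by linarith, by linarith⟩⟩

include hφ in
theorem moduli {ι : Type} [Fintype ι] (k : ι → ℕ → ℕ) {ε : ℝ} (hε : 0 < ε) :
    ∀ᶠ n in UU φ, ∃ r : ℝ, 0 ≤ r ∧ r ≤ 1 ∧ ∀ j, |r ^ (k j n) - ‖φ (mon (k j))‖| < ε := by
  classical
  by_cases hA : ∃ j0, 0 < ‖φ (mon (k j0))‖ ∧ ‖φ (mon (k j0))‖ < 1
  · obtain ⟨j0, h0, h1⟩ := hA
    have h2 : ∀ᶠ n in UU φ, ∀ j, 1 ≤ k j0 n ∧
        |‖φ (mon (k j0))‖ ^ ((k j n : ℝ) / k j0 n) - ‖φ (mon (k j))‖| < ε :=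
      Filter.eventually_all.2 fun j => modulus_aux hφ h0 h1 hε
    filter_upwards [h2] with n hn
    have hk := (hn j0).1
    have hk' : (0 : ℝ) < k j0 n := by exact_mod_cast hk
    refine ⟨‖φ (mon (k j0))‖ ^ ((1 : ℝ) / k j0 n), by positivity,
      Real.rpow_le_one h0.le h1.le (by positivity), fun j => ?_⟩
    have e : (‖φ (mon (k j0))‖ ^ ((1 : ℝ) / k j0 n)) ^ (k j n) =
        ‖φ (mon (k j0))‖ ^ ((k j n : ℝ) / k j0 n) := by
      rw [← Real.rpow_natCast, ← Real.rpow_mul h0.le]
      congr 1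
      field_simp
    rw [e]
    exact (hn j).2
  · push Not at hA
    have h01 : ∀ j, ‖φ (mon (k j))‖ = 0 ∨ ‖φ (mon (k j))‖ = 1 := by
      intro j
      rcases (norm_nonneg (φ (mon (k j)))).eq_or_lt with h | h
      · exact Or.inl h.symm
      · exact Or.inr (le_antisymm (norm_char_mon_le hφ _) (hA j h))
    set J : Finset ι := Finset.univ.filter (fun j => ‖φ (mon (k j))‖ = 1) with hJ
    set K : ℕ → ℕ := fun n => ∑ j, (if j ∈ J then 1 else 0) * k j n with hK
    have hKφ : ‖φ (mon K)‖ = 1 := by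
      rw [hK, mon_sum, map_prod, norm_prod]
      apply Finset.prod_eq_one
      intro j _
      rw [map_pow, norm_pow]
      by_cases hj : j ∈ J
      · have : ‖φ (mon (k j))‖ = 1 := by
          rw [hJ, Finset.mem_filter] at hj
          exact hj.2
        rw [if_pos hj, this, one_pow]
      · rw [if_neg hj, pow_zero]
    set e : ℝ := min ε (1 / 2) / 2 with he
    have he0 : 0 < e := by positivity
    have he1 : e ≤ 1 / 4 := by
      have : min ε (1 / 2) ≤ 1 / 2 := min_le_right _ _
      linarith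
    have heε : e < ε := by
      have : min ε (1 / 2) ≤ ε := min_le_left _ _
      linarith
    obtain ⟨Q, hQ⟩ := exists_pow_lt_of_lt_one he0 (by linarith : 1 - e < 1)
    have hfar : ∀ᶠ n in UU φ, ∀ i, i ∉ J → Q * K n < k i n := by
      rw [Filter.eventually_all]
      intro i
      by_cases hi : i ∈ J
      · exact Filter.Eventually.of_forall fun n h => absurd hi h
      · have hi0 : ‖φ (mon (k i))‖ = 0 := by
          rcases h01 i with h | h
          · exact h
          · exact absurd (by rw [hJ, Finset.mem_filter]; exact ⟨Finset.mem_univ _, h⟩) hi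
        have : ∀ᶠ n in UU φ, Q * K n < k i n := by
          by_contra hcon
          rw [← Ultrafilter.eventually_not] at hcon
          have h2 := char_mono hφ (k := k i) (l := K) (p := 1) (q := Q) (by
            filter_upwards [hcon] with n hn
            omega)
          rw [hKφ, hi0] at h2
          norm_num at h2
        filter_upwards [this] with n hn _ using hn
    filter_upwards [hfar] with n hn
    have hle : ∀ j ∈ J, k j n ≤ K n := by
      intro j hj
      have : (if j ∈ J then 1 else 0) * k j n ≤ K n :=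
        Finset.single_le_sum (f := fun j => (if j ∈ J then 1 else 0) * k j n)
          (fun _ _ => Nat.zero_le _) (Finset.mem_univ j)
      rwa [if_pos hj, one_mul] at this
    have hJ1 : ∀ j ∈ J, ‖φ (mon (k j))‖ = 1 := fun j hj => (Finset.mem_filter.1 hj).2
    have hJ0 : ∀ j, j ∉ J → ‖φ (mon (k j))‖ = 0 := by
      intro j hj
      rcases h01 j with h | h
      · exact h
      · exact absurd (by rw [hJ, Finset.mem_filter]; exact ⟨Finset.mem_univ _, h⟩) hj
    by_cases hK0 : K n = 0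
    · refine ⟨0, le_rfl, zero_le_one, fun j => ?_⟩
      by_cases hj : j ∈ J
      · have : k j n = 0 := by
          have := hle j hj
          omega
        rw [this, hJ1 j hj]
        simpa using hε
      · have h2 := hn j hj
        rw [hK0, mul_zero] at h2
        rw [hJ0 j hj, zero_pow (by omega)]
        simpa using hε
    · have hK' : (0 : ℝ) < K n := by exact_mod_cast Nat.pos_of_ne_zero hK0
      have h1e : 0 < 1 - e := by linarith
      have h1e' : 1 - e < 1 := by linarith
      refine ⟨(1 - e) ^ ((1 : ℝ) / K n), by positivity,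
        Real.rpow_le_one h1e.le h1e'.le (by positivity), fun j => ?_⟩
      have e1 : ((1 - e) ^ ((1 : ℝ) / K n)) ^ (k j n) = (1 - e) ^ ((k j n : ℝ) / K n) := by
        rw [← Real.rpow_natCast, ← Real.rpow_mul h1e.le]
        congr 1
        field_simp
      rw [e1]
      by_cases hj : j ∈ J
      · rw [hJ1 j hj]
        have h2 : (k j n : ℝ) / K n ≤ 1 := by
          rw [div_le_one hK']
          exact_mod_cast hle j hj
        have h3 : (1 - e) ^ (1 : ℝ) ≤ (1 - e) ^ ((k j n : ℝ) / K n) :=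
          Real.rpow_le_rpow_of_exponent_ge h1e h1e'.le h2
        rw [Real.rpow_one] at h3
        have h4 : (1 - e) ^ ((k j n : ℝ) / K n) ≤ 1 :=
          Real.rpow_le_one h1e.le h1e'.le (by positivity)
        rw [abs_lt]
        constructor <;> linarith
      · rw [hJ0 j hj, sub_zero, abs_of_nonneg (by positivity)]
        have h2 : (Q : ℝ) ≤ (k j n : ℝ) / K n := by
          rw [le_div_iff₀ hK']
          exact_mod_cast (hn j hj).le
        have h3 : (1 - e) ^ ((k j n : ℝ) / K n) ≤ (1 - e) ^ (Q : ℝ) :=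
          Real.rpow_le_rpow_of_exponent_ge h1e h1e'.le h2
        rw [Real.rpow_natCast] at h3
        linarith

include hφ in
theorem arguments {ι : Type} [Fintype ι] [DecidableEq ι] (k : ι → ℕ → ℕ)
    (hne : ∀ j, φ (mon (k j)) ≠ 0) {ε : ℝ} (hε : 0 < ε) :
    ∀ᶠ n in UU φ, ∃ w : ℂ, ‖w‖ = 1 ∧
      ∀ j, ‖w ^ (k j n) - φ (mon (k j)) / ‖φ (mon (k j))‖‖ < ε := by
  rcases isEmpty_or_nonempty ι with hι | hι
  · exact Filter.Eventually.of_forall fun n => ⟨1, norm_one, fun j => (hι.false j).elim⟩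
  set u : ι → ℂ := fun j => φ (mon (k j)) / ‖φ (mon (k j))‖ with hu
  have hun : ∀ j, ‖u j‖ = 1 := by
    intro j
    simp only [hu]
    rw [norm_div, Complex.norm_real, norm_norm, div_self (norm_ne_zero_iff.2 (hne j))]
  set e : ℝ := min ε 1 with he
  have he0 : 0 < e := by positivity
  have he1 : e ≤ 1 := min_le_right _ _
  have hN : (1 : ℝ) ≤ Fintype.card ι := by exact_mod_cast Fintype.card_pos
  have hr8 : e ^ 2 / (8 * Fintype.card ι) ≤ 1 / 8 := by
    rw [div_le_div_iff₀ (by positivity) (by norm_num)]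
    nlinarith
  have hr8' : 0 < e ^ 2 / (8 * Fintype.card ι) := by positivity
  obtain ⟨L, hL⟩ := exists_L (Fintype.card ι) (r := 1 - e ^ 2 / (8 * Fintype.card ι))
    (by linarith) (by linarith) one_pos
  have hrel : ∀ᶠ n in UU φ, Rel (fun j => k j n) u L := by
    have h1 : ∀ᶠ n in UU φ, ∀ a b : ι → Fin (L + 1),
        ∑ j, (a j : ℕ) * k j n = ∑ j, (b j : ℕ) * k j n →
        ∏ j, u j ^ (a j : ℕ) = ∏ j, u j ^ (b j : ℕ) := by
      rw [Filter.eventually_all]
      intro a
      rw [Filter.eventually_all]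
      intro b
      by_cases h : ∀ᶠ n in UU φ, ∑ j, (a j : ℕ) * k j n = ∑ j, (b j : ℕ) * k j n
      · refine Filter.Eventually.of_forall fun n _ => ?_
        have h2 := char_rel hφ k (fun j => (a j : ℕ)) (fun j => (b j : ℕ)) h
        have h3 := congrArg (fun z : ℂ => ((‖z‖ : ℝ) : ℂ)) h2
        simp only [norm_prod, norm_pow] at h3
        simp only [hu, div_pow, Finset.prod_div_distrib]
        push_cast at h3
        rw [h2, h3]
      · rw [← Ultrafilter.eventually_not] at h
        filter_upwards [h] with n hn h'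
        exact absurd h' hn
    filter_upwards [h1] with n hn
    intro α β hα hβ hαβ
    exact hn (fun j => ⟨α j, Nat.lt_succ_of_le (hα j)⟩) (fun j => ⟨β j, Nat.lt_succ_of_le (hβ j)⟩)
      hαβ
  filter_upwards [hrel] with n hn
  obtain ⟨w, hw, hwj⟩ := kronecker hun hn he0 hL
  exact ⟨w, hw, fun j => (hwj j).trans_le (min_le_left _ _)⟩

include hφ in
/-- **Characters on finitely many monomial sequences are limits of points of the disc.** -/
theorem visible {ι : Type} [Fintype ι] [DecidableEq ι] (k : ι → ℕ → ℕ) {ε : ℝ} (hε : 0 < ε) :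
    ∀ᶠ n in UU φ, ∃ z : ℂ, ‖z‖ ≤ 1 ∧ ∀ j, ‖z ^ (k j n) - φ (mon (k j))‖ < ε := by
  have h1 := moduli hφ k (half_pos hε)
  have h2 := arguments hφ (ι := {j // φ (mon (k j)) ≠ 0}) (fun j => k j.1) (fun j => j.2)
    (half_pos hε)
  filter_upwards [h1, h2] with n hn1 hn2
  obtain ⟨r, hr0, hr1, hr⟩ := hn1
  obtain ⟨w, hw, hwj⟩ := hn2
  refine ⟨r * w, ?_, fun j => ?_⟩
  · rw [norm_mul, hw, mul_one, Complex.norm_real, Real.norm_of_nonneg hr0]
    exact hr1
  · by_cases hj : φ (mon (k j)) = 0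
    · have h3 := hr j
      rw [hj, norm_zero, sub_zero, abs_of_nonneg (by positivity)] at h3
      rw [hj, sub_zero, norm_pow, norm_mul, hw, mul_one, Complex.norm_real,
        Real.norm_of_nonneg hr0]
      linarith
    · have h3 := hr j
      have h4 := hwj ⟨j, hj⟩
      simp only at h4
      set ρ := ‖φ (mon (k j))‖ with hρ
      have hρ0 : (ρ : ℂ) ≠ 0 := by
        rw [hρ]
        exact_mod_cast norm_ne_zero_iff.2 hj
      have hρ1 : ρ ≤ 1 := norm_char_mon_le hφ _
      have e1 : (r * w : ℂ) ^ (k j n) - φ (mon (k j)) =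
          ((r ^ (k j n) - ρ : ℝ) : ℂ) * w ^ (k j n) +
            ρ * (w ^ (k j n) - φ (mon (k j)) / ρ) := by
        rw [mul_pow]
        push_cast
        field_simp
        ring
      rw [e1]
      refine (norm_add_le _ _).trans_lt ?_
      rw [norm_mul, norm_mul, norm_pow, hw, one_pow, mul_one, Complex.norm_real, Complex.norm_real,
        Real.norm_eq_abs, Real.norm_of_nonneg (norm_nonneg _)]
      have h5 : ρ * ‖w ^ (k j n) - φ (mon (k j)) / ρ‖ ≤ ‖w ^ (k j n) - φ (mon (k j)) / ρ‖ :=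
        mul_le_of_le_one_left (norm_nonneg _) hρ1
      linarith

end Vis

end Pool.Agent.X104.WI
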