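import Mathlib
import Pool.Agent.X104.WI.Vis

set_option autoImplicit false
set_option linter.unusedSectionVars false

namespace Pool.Agent.X104.WI

open Filter Topology Polynomial

open Classical in
/-- the part of a polynomial made of the coefficients with `q ‖a_i‖` -/
noncomputable def part (p : ℂ[X]) (q : ℝ → Prop) : ℂ[X] :=
  ∑ i ∈ p.support, if q ‖p.coeff i‖ then monomial i (p.coeff i) else 0

open Classical in
theorem coeff_part (p : ℂ[X]) (q : ℝ → Prop) (i : ℕ) :
    (part p q).coeff i = if q ‖p.coeff i‖ then p.coeff i else 0 := by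
  unfold part
  rw [finsetSum_coeff]
  have h : ∀ j, (if q ‖p.coeff j‖ then monomial j (p.coeff j) else 0 : ℂ[X]).coeff i =
      if j = i then (if q ‖p.coeff i‖ then p.coeff i else 0) else 0 := by
    intro j
    by_cases hj : j = i
    · subst hj
      rw [if_pos rfl]
      split_ifs <;> simp
    · split_ifs
      · rw [coeff_monomial, if_neg hj]
      · simp
  simp_rw [h]
  rw [Finset.sum_ite_eq']
  split_ifs with h1 h2 h2
  · rfl
  · rfl
  · rw [notMem_support_iff.1 h1]
  · rfl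

open Classical in
theorem l1_part (p : ℂ[X]) (q : ℝ → Prop) :
    l1 (part p q) = ∑ i ∈ p.support, if q ‖p.coeff i‖ then ‖p.coeff i‖ else 0 := by
  rw [l1_eq_sum (S := p.support)]
  · refine Finset.sum_congr rfl fun i _ => ?_
    rw [coeff_part]
    split_ifs <;> simp
  · intro i hi
    rw [mem_support_iff, coeff_part] at hi
    rw [mem_support_iff]
    intro h0
    rw [h0] at hi
    simp at hi

theorem l1_part_le (p : ℂ[X]) (q : ℝ → Prop) : l1 (part p q) ≤ l1 p := by
  classical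
  rw [l1_part, l1]
  refine Finset.sum_le_sum fun i _ => ?_
  split_ifs
  · exact le_rfl
  · exact norm_nonneg _

theorem l1_nonneg (p : ℂ[X]) : 0 ≤ l1 p := Finset.sum_nonneg fun _ _ => norm_nonneg _

/-- choice of the first scale -/
theorem exists_scale (U : Ultrafilter ℕ) {p : ℕ → ℂ[X]} (hp : ∀ n, l1 (p n) = 1) {η : ℝ}
    (hη : 0 < η) : ∃ e₁ : ℝ, 0 < e₁ ∧ e₁ ≤ 1 ∧ ∀ e₂ : ℝ, 0 < e₂ → e₂ < e₁ →
      ∀ᶠ n in U, l1 (part (p n) (fun x => e₂ ≤ x ∧ x < e₁)) < η := by
  classical
  by_contra hcon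
  push Not at hcon
  have key : ∀ m : ℕ, ∃ e : ℝ, 0 < e ∧ e ≤ 1 ∧
      ∀ᶠ n in U, m * η ≤ l1 (part (p n) (fun x => e ≤ x)) := by
    intro m
    induction m with
    | zero =>
      refine ⟨1, one_pos, le_rfl, Filter.Eventually.of_forall fun n => ?_⟩
      simpa using l1_nonneg _
    | succ m ih =>
      obtain ⟨e₁, he1, he1', h1⟩ := ih
      obtain ⟨e₂, he2, he2', h2⟩ := hcon e₁ he1 he1'
      refine ⟨e₂, he2, he2'.le.trans he1', ?_⟩
      filter_upwards [h1, h2] with n a1 a2
      have : l1 (part (p n) (fun x => e₂ ≤ x)) = l1 (part (p n) (fun x => e₁ ≤ x)) +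
          l1 (part (p n) (fun x => e₂ ≤ x ∧ x < e₁)) := by
        rw [l1_part, l1_part, l1_part, ← Finset.sum_add_distrib]
        refine Finset.sum_congr rfl fun i _ => ?_
        by_cases h3 : e₁ ≤ ‖(p n).coeff i‖
        · rw [if_pos (he2'.le.trans h3), if_pos h3, if_neg (fun h => absurd h.2 (not_lt.2 h3)),
            add_zero]
        · by_cases h4 : e₂ ≤ ‖(p n).coeff i‖
          · rw [if_pos h4, if_neg h3, if_pos ⟨h4, not_le.1 h3⟩, zero_add]
          · rw [if_neg h4, if_neg h3, if_neg (fun h => absurd h.1 h4), zero_add]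
      rw [this]
      push_cast
      linarith
  obtain ⟨m, hm⟩ := exists_nat_gt (1 / η)
  obtain ⟨e, he, he1, h⟩ := key m
  obtain ⟨n, hn⟩ := h.exists
  have h1 := l1_part_le (p n) (fun x => e ≤ x)
  rw [hp] at h1
  rw [div_lt_iff₀ hη] at hm
  linarith

/-- enumeration of the large coefficients -/
theorem exists_enum {p : ℂ[X]} (hp : l1 p ≤ 1) {e : ℝ} (he : 0 < e) {N : ℕ}
    (hN : 1 / e ≤ N) : ∃ (k : Fin N → ℕ) (d : Fin N → ℂ),
      ∑ j, monomial (k j) (d j) = part p (fun x => e ≤ x) ∧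
      ∑ j, ‖d j‖ = l1 (part p (fun x => e ≤ x)) := by
  classical
  set S : Finset ℕ := p.support.filter (fun i => e ≤ ‖p.coeff i‖) with hS
  have hcard : S.card ≤ N := by
    have h1 : (S.card : ℝ) * e ≤ 1 := by
      calc (S.card : ℝ) * e = ∑ i ∈ S, e := by rw [Finset.sum_const, nsmul_eq_mul]
        _ ≤ ∑ i ∈ S, ‖p.coeff i‖ := Finset.sum_le_sum fun i hi => (Finset.mem_filter.1 hi).2
        _ ≤ l1 p := Finset.sum_le_sum_of_subset_of_nonneg (Finset.filter_subset _ _)
            fun _ _ _ => norm_nonneg _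
        _ ≤ 1 := hp
    have h2 : (S.card : ℝ) ≤ 1 / e := by
      rw [le_div_iff₀ he]; exact h1
    exact_mod_cast h2.trans hN
  obtain ⟨T, hST, hT⟩ := Infinite.exists_superset_card_eq S N hcard
  set f : Fin N ≃ T := (T.equivFinOfCardEq hT).symm with hf
  refine ⟨fun j => (f j : ℕ), fun j => if e ≤ ‖p.coeff (f j)‖ then p.coeff (f j) else 0, ?_, ?_⟩
  · have h1 : ∑ j, monomial (f j : ℕ) (if e ≤ ‖p.coeff (f j)‖ then p.coeff (f j) else 0) =
        ∑ x : T, (monomial (x : ℕ) (if e ≤ ‖p.coeff x‖ then p.coeff x else 0) : ℂ[X]) :=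
      Equiv.sum_comp f (fun x : T => monomial (x : ℕ) (if e ≤ ‖p.coeff x‖ then p.coeff x else 0))
    rw [h1, Finset.sum_coe_sort T
      (fun x => (monomial x (if e ≤ ‖p.coeff x‖ then p.coeff x else 0) : ℂ[X]))]
    ext i
    rw [coeff_part, finsetSum_coeff]
    simp_rw [coeff_monomial]
    rw [Finset.sum_ite_eq']
    by_cases hi : i ∈ T
    · rw [if_pos hi]
    · rw [if_neg hi]
      split_ifs with h2
      · by_contra h0
        apply hi
        apply hST
        rw [hS, Finset.mem_filter, mem_support_iff]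
        exact ⟨fun h => h0 h.symm, h2⟩
      · rfl
  · have h1 : ∑ j, ‖(if e ≤ ‖p.coeff (f j)‖ then p.coeff (f j) else 0 : ℂ)‖ =
        ∑ x : T, ‖(if e ≤ ‖p.coeff x‖ then p.coeff x else 0 : ℂ)‖ :=
      Equiv.sum_comp f (fun x : T => ‖(if e ≤ ‖p.coeff x‖ then p.coeff x else 0 : ℂ)‖)
    rw [h1, Finset.sum_coe_sort T
      (fun x => ‖(if e ≤ ‖p.coeff x‖ then p.coeff x else 0 : ℂ)‖)]
    rw [l1_eq_sum (S := T)]
    · refine Finset.sum_congr rfl fun i _ => ?_
      rw [coeff_part]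
    · intro i hi
      rw [mem_support_iff, coeff_part] at hi
      apply hST
      rw [hS, Finset.mem_filter, mem_support_iff]
      split_ifs at hi with h2
      · exact ⟨hi, h2⟩
      · exact absurd rfl hi

theorem part_split (p : ℂ[X]) {e₁ e₂ : ℝ} (h : e₂ < e₁) :
    p = part p (fun x => e₁ ≤ x) + part p (fun x => e₂ ≤ x ∧ x < e₁) + part p (fun x => x < e₂) := by
  classical
  ext i
  rw [coeff_add, coeff_add, coeff_part, coeff_part, coeff_part]
  by_cases h1 : e₁ ≤ ‖p.coeff i‖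
  · rw [if_pos h1, if_neg (fun h => absurd h.2 (not_lt.2 h1)),
      if_neg (not_lt.2 (h.le.trans h1))]
    simp
  · by_cases h2 : e₂ ≤ ‖p.coeff i‖
    · rw [if_neg h1, if_pos ⟨h2, not_le.1 h1⟩, if_neg (not_lt.2 h2)]
      simp
    · rw [if_neg h1, if_neg (fun h => absurd h.1 h2), if_pos (not_le.1 h2)]
      simp

theorem l1_sub_part (p : ℂ[X]) (e : ℝ) :
    l1 (p - part p (fun x => e ≤ x)) = l1 p - l1 (part p (fun x => e ≤ x)) := by
  classical
  rw [l1_part, l1_eq_sum (S := p.support), l1, ← Finset.sum_sub_distrib]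
  · refine Finset.sum_congr rfl fun i _ => ?_
    rw [coeff_sub, coeff_part]
    split_ifs <;> simp
  · intro i hi
    rw [mem_support_iff, coeff_sub, coeff_part] at hi
    rw [mem_support_iff]
    intro h0
    rw [h0] at hi
    simp at hi

/-- **The main step**: a bounded sequence of normalized polynomials with `|p_n| ≥ δ > 1/2` is
invertible. -/
theorem isUnit_seq {δ : ℝ} (hδ : 1 / 2 < δ) {p : ℕ → ℂ[X]} (hp : ∀ n, l1 (p n) = 1)
    (hlow : ∀ n, ∀ z : ℂ, ‖z‖ ≤ 1 → δ ≤ ‖(p n).eval z‖) :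
    IsUnit (mk (fun n => ofPoly (p n)) 1 (fun n => by rw [norm_ofPoly, hp])) := by
  classical
  by_contra hnu
  set F : AA := mk (fun n => ofPoly (p n)) 1 (fun n => by rw [norm_ofPoly, hp]) with hF
  obtain ⟨χ, hχ⟩ := WeakDual.CharacterSpace.exists_apply_eq_zero hnu
  set φ : AA →ₐ[ℂ] ℂ := WeakDual.CharacterSpace.toAlgHom χ with hφdef
  have hφ : ∀ x : AA, ‖φ x‖ ≤ ‖x‖ := fun x => AlgHom.norm_apply_le_self φ x
  have hF0 : φ F = 0 := hχ
  have hδ1 : δ ≤ 1 := by
    have h1 := hlow 0 0 (by simp)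
    have h2 := norm_eval_le_l1 (p 0) (z := 0) (by simp)
    rw [hp] at h2
    linarith
  set η : ℝ := (2 * δ - 1) / 10 with hη
  have hη0 : 0 < η := by
    rw [hη]; linarith
  have hη1 : η ≤ 1 := by
    rw [hη]; linarith
  obtain ⟨e₁, he1, he1', hsc⟩ := exists_scale (UU φ) hp hη0
  set N : ℕ := ⌈1 / e₁⌉₊ with hN
  have hN1 : 1 / e₁ ≤ N := Nat.le_ceil _
  have hN0 : 1 ≤ N := by
    have h1 : (1 : ℝ) ≤ 1 / e₁ := by rw [le_div_iff₀ he1]; linarith
    exact_mod_cast h1.trans hN1
  have hNr : (1 : ℝ) ≤ N := by exact_mod_cast hN0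
  obtain ⟨e, he, hbohr⟩ := exists_eps N hN0 hη0 hη1
  set e₂ : ℝ := min e (e₁ / 2) with he2
  have he20 : 0 < e₂ := by positivity
  have he21 : e₂ < e₁ := (min_le_right _ _).trans_lt (by linarith)
  have he22 : e₂ ≤ e := min_le_left _ _
  choose k d hkd hd using fun n => exists_enum (p := p n) (hp n).le he1 hN1
  have hd1 : ∀ n, ∑ j, ‖d n j‖ ≤ 1 := fun n => by
    rw [hd n, ← hp n]; exact l1_part_le _ _
  have hD : ∀ᶠ n in UU φ, ∀ z : ℂ, ‖z‖ ≤ 1 →
      δ - 4 * η ≤ ‖(part (p n) (fun x => e₁ ≤ x)).eval z‖ := by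
    filter_upwards [hsc e₂ he20 he21] with n hn
    have h1 := hbohr (k n) (d n) (part (p n) (fun x => e₂ ≤ x ∧ x < e₁))
      (part (p n) (fun x => x < e₂)) δ (hd1 n) hn.le (by rw [← hp n]; exact l1_part_le _ _) (by
        intro i
        rw [coeff_part]
        split_ifs with h
        · exact h.le.trans he22
        · simpa using he.le) (by
        intro z hz
        rw [hkd n, ← part_split (p n) he21]
        exact hlow n z hz)
    rw [hkd n] at h1
    exact h1
  -- the decomposition in the algebra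
  set DD : AA := mk (fun n => ofPoly (part (p n) (fun x => e₁ ≤ x))) 1 (fun n => by
    rw [norm_ofPoly, ← hp n]; exact l1_part_le _ _) with hDD
  have hrest : ‖φ (F - DD)‖ ≤ 1 - δ + 4 * η := by
    apply norm_char_le hφ (by linarith)
    filter_upwards [hD] with n hn
    have h1 := hn 0 (by simp)
    have h2 := norm_eval_le_l1 (part (p n) (fun x => e₁ ≤ x)) (z := 0) (by simp)
    have h3 : (F - DD) n = ofPoly (p n - part (p n) (fun x => e₁ ≤ x)) := by
      rw [map_sub]
      rfl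
    rw [h3, norm_ofPoly, l1_sub_part, hp n]
    linarith
  set y : Fin N → AA := fun j => mk (fun n => d n j • mon (fun n => k n j) n) 1 (fun n => by
    rw [norm_smul, mon_apply, norm_ofPoly, l1_X_pow, mul_one]
    exact (Finset.single_le_sum (f := fun j => ‖d n j‖) (fun _ _ => norm_nonneg _)
      (Finset.mem_univ j)).trans (hd1 n)) with hy
  have hDy : DD = ∑ j, y j := by
    ext1 n
    have h1 : (∑ j, y j) n = ∑ j, y j n := by
      rw [BoundedContinuousFunction.coe_sum, Finset.sum_apply]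
    rw [h1]
    simp only [hDD, hy, mk_apply, mon_apply]
    rw [← hkd n, map_sum]
    refine Finset.sum_congr rfl fun j _ => ?_
    rw [← map_smul, smul_X_eq_monomial]
  have hlim : ∀ j, ∃ c : ℂ, ‖c‖ ≤ 1 ∧ Tendsto (fun n => d n j) (UU φ) (𝓝 c) := by
    intro j
    have hmem : ∀ n, d n j ∈ Metric.closedBall (0 : ℂ) 1 := by
      intro n
      rw [mem_closedBall_zero_iff]
      exact (Finset.single_le_sum (f := fun j => ‖d n j‖) (fun _ _ => norm_nonneg _)
        (Finset.mem_univ j)).trans (hd1 n)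
    have hcomp := (isCompact_closedBall (0 : ℂ) 1).ultrafilter_le_nhds
      ((UU φ).map (fun n => d n j)) (by
        rw [Filter.le_principal_iff, Ultrafilter.coe_map, Filter.mem_map]
        exact Filter.univ_mem' hmem)
    obtain ⟨c, hc, hc2⟩ := hcomp
    exact ⟨c, by simpa using hc, hc2⟩
  choose c hc1 hc2 using hlim
  set ζ : Fin N → ℂ := fun j => φ (mon (fun n => k n j)) with hζ
  have hφD : φ DD = ∑ j, c j * ζ j := by
    rw [hDy, map_sum]
    refine Finset.sum_congr rfl fun j _ => ?_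
    exact char_smul hφ (fun n => rfl) (hc2 j)
  have hζ1 : ∀ j, ‖ζ j‖ ≤ 1 := fun j => norm_char_mon_le hφ _
  have hlowD : δ - 5 * η ≤ ‖φ DD‖ := by
    set ε : ℝ := η / (2 * N) with hε
    have hε0 : 0 < ε := by positivity
    have hv := visible hφ (fun (j : Fin N) n => k n j) hε0
    have hcc : ∀ᶠ n in UU φ, ∀ j, ‖d n j - c j‖ < ε := by
      rw [Filter.eventually_all]
      intro j
      have := (Metric.tendsto_nhds.1 (hc2 j)) ε hε0
      simpa [dist_eq_norm] using this
    obtain ⟨n, ⟨z, hz, hzj⟩, hn2, hn3⟩ := (hv.and (hcc.and hD)).exists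
    have h1 := hn3 z hz
    have h2 : (part (p n) (fun x => e₁ ≤ x)).eval z = ∑ j, d n j * z ^ k n j := by
      rw [← hkd n, eval_finsetSum]
      refine Finset.sum_congr rfl fun j _ => ?_
      rw [eval_monomial]
    rw [h2] at h1
    have h3 : ‖∑ j, d n j * z ^ k n j - ∑ j, c j * ζ j‖ ≤ η := by
      rw [← Finset.sum_sub_distrib]
      calc ‖∑ j, (d n j * z ^ k n j - c j * ζ j)‖
          ≤ ∑ j, ‖d n j * z ^ k n j - c j * ζ j‖ := norm_sum_le _ _
        _ ≤ ∑ _j : Fin N, (ε + ε) := by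
            refine Finset.sum_le_sum fun j _ => ?_
            have e1 : d n j * z ^ k n j - c j * ζ j =
                (d n j - c j) * z ^ k n j + c j * (z ^ k n j - ζ j) := by ring
            rw [e1]
            refine (norm_add_le _ _).trans (add_le_add ?_ ?_)
            · rw [norm_mul, norm_pow]
              have : ‖z‖ ^ k n j ≤ 1 := pow_le_one₀ (norm_nonneg _) hz
              have h5 := (hn2 j).le
              nlinarith [norm_nonneg (d n j - c j)]
            · rw [norm_mul]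
              have h5 := (hzj j).le
              have h6 := hc1 j
              calc ‖c j‖ * ‖z ^ k n j - ζ j‖ ≤ 1 * ‖z ^ k n j - ζ j‖ :=
                    mul_le_mul_of_nonneg_right h6 (norm_nonneg _)
                _ ≤ ε := by rw [one_mul]; exact h5
        _ = N * (ε + ε) := by
            rw [Finset.sum_const, nsmul_eq_mul, Finset.card_univ, Fintype.card_fin]
        _ = η := by
            rw [hε]
            field_simp
            ring
    rw [hφD]
    have h4 := norm_sub_norm_le (∑ j, d n j * z ^ k n j) (∑ j, c j * ζ j)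
    linarith
  have hsum : φ DD = -φ (F - DD) := by
    rw [map_sub, hF0]
    ring
  rw [hsum, norm_neg] at hlowD
  have : 2 * δ - 1 = 10 * η := by rw [hη]; ring
  linarith

/-- uniform bound for polynomials -/
theorem poly_bound {δ : ℝ} (hδ : 1 / 2 < δ) : ∃ C : ℝ, ∀ p : ℂ[X], l1 p = 1 →
    (∀ z : ℂ, ‖z‖ ≤ 1 → δ ≤ ‖p.eval z‖) → ∃ y : W, ofPoly p * y = 1 ∧ ‖y‖ ≤ C := by
  by_contra hcon
  push Not at hcon
  choose p hp1 hp2 hp3 using fun n : ℕ => hcon (n : ℝ)
  obtain ⟨u, hu⟩ := isUnit_seq hδ hp1 hp2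
  obtain ⟨n, hn⟩ := exists_nat_gt ‖((u⁻¹ : AAˣ) : AA)‖
  have h1 : ofPoly (p n) * ((u⁻¹ : AAˣ) : AA) n = 1 := by
    have h2 : (u : AA) * ((u⁻¹ : AAˣ) : AA) = 1 := u.mul_inv
    rw [hu] at h2
    have h3 := congrArg (fun x : AA => x n) h2
    simpa using h3
  have h2 := hp3 n _ h1
  have h3 := (((u⁻¹ : AAˣ) : AA)).norm_coe_le_norm n
  linarith

end Pool.Agent.X104.WI
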