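import Mathlib
import Pool.Agent.X104.WI.Main

set_option autoImplicit false

namespace Pool.Agent.X104.WI

open Filter Topology Polynomial

/-- truncation -/
noncomputable def tr (a : ℕ → ℂ) (T : ℕ) : ℂ[X] := ∑ i ∈ Finset.range T, monomial i (a i)

theorem coeff_tr (a : ℕ → ℂ) (T i : ℕ) : (tr a T).coeff i = if i < T then a i else 0 := by
  unfold tr
  rw [finsetSum_coeff]
  simp_rw [coeff_monomial]
  rw [Finset.sum_ite_eq']
  simp

theorem l1_tr (a : ℕ → ℂ) (T : ℕ) : l1 (tr a T) = ∑ i ∈ Finset.range T, ‖a i‖ := by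
  rw [l1_eq_sum (S := Finset.range T)]
  · refine Finset.sum_congr rfl fun i hi => ?_
    rw [coeff_tr, if_pos (Finset.mem_range.1 hi)]
  · intro i hi
    rw [mem_support_iff, coeff_tr] at hi
    rw [Finset.mem_range]
    by_contra h
    rw [if_neg h] at hi
    exact hi rfl

theorem l1_C_mul (c : ℂ) (p : ℂ[X]) : l1 (C c * p) = ‖c‖ * l1 p := by
  rw [l1_eq_sum (S := p.support), l1, Finset.mul_sum]
  · refine Finset.sum_congr rfl fun i _ => ?_
    rw [coeff_C_mul, norm_mul]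
  · intro i hi
    rw [mem_support_iff, coeff_C_mul] at hi
    exact mem_support_iff.2 (right_ne_zero_of_mul hi)

/-- **Uniform bound for the inverse.** If `δ > 1/2`, the coefficient sums of inverses are bounded
by a constant depending only on `δ`. -/
theorem uniform_bound {δ : ℝ} (hδ : 1 / 2 < δ) : ∃ K : ℝ, ∀ a b : ℕ → ℂ,
    HasSum (fun n => ‖a n‖) 1 →
    (∀ z : ℂ, ‖z‖ < 1 → δ ≤ ‖∑' n, a n * z ^ n‖) →
    PowerSeries.mk a * PowerSeries.mk b = 1 →
    ∀ T : ℕ, ∑ n ∈ Finset.range T, ‖b n‖ ≤ K := by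
  set δ' : ℝ := (δ + 1 / 2) / 2 with hδ'
  have h1 : 1 / 2 < δ' := by rw [hδ']; linarith
  have h2 : δ' < δ := by rw [hδ']; linarith
  obtain ⟨C₀, hC⟩ := poly_bound h1
  refine ⟨2 * C₀, ?_⟩
  intro a b ha hf hab T
  -- choose a large truncation
  set e : ℝ := min (δ - δ') (1 / 2) with he
  have he0 : 0 < e := lt_min (by linarith) (by norm_num)
  have hlim := ha.tendsto_sum_nat
  have hev : ∀ᶠ n in atTop, 1 - e < ∑ i ∈ Finset.range n, ‖a i‖ :=
    hlim.eventually (lt_mem_nhds (by linarith))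
  obtain ⟨M, hM1, hM2⟩ := (hev.and (eventually_ge_atTop T)).exists
  set m : ℝ := ∑ i ∈ Finset.range M, ‖a i‖ with hm
  have hm1 : m ≤ 1 := sum_le_hasSum _ (fun _ _ => norm_nonneg _) ha
  have he1 : e ≤ 1 / 2 := min_le_right _ _
  have he2 : e ≤ δ - δ' := min_le_left _ _
  have hm0 : 1 / 2 ≤ m := by linarith
  have hmpos : 0 < m := by linarith
  set P : ℂ[X] := tr a M with hP
  -- lower bound on the open disc
  have hopen : ∀ z : ℂ, ‖z‖ < 1 → δ' ≤ ‖P.eval z‖ := by
    intro z hz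
    have hsum : Summable (fun n => a n * z ^ n) := by
      apply Summable.of_norm
      refine Summable.of_nonneg_of_le (fun _ => norm_nonneg _) (fun n => ?_) ha.summable
      rw [norm_mul, norm_pow]
      have : ‖z‖ ^ n ≤ 1 := pow_le_one₀ (norm_nonneg _) hz.le
      nlinarith [norm_nonneg (a n)]
    have e1 : P.eval z = ∑ i ∈ Finset.range M, a i * z ^ i := by
      rw [hP, tr, eval_finsetSum]
      refine Finset.sum_congr rfl fun i _ => ?_
      rw [eval_monomial]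
    have e2 := hsum.sum_add_tsum_nat_add M
    have e3 : ‖∑' i, a (i + M) * z ^ (i + M)‖ ≤ 1 - m := by
      have h3 : HasSum (fun i => ‖a (i + M)‖) (1 - m) := (hasSum_nat_add_iff' M).2 ha
      refine tsum_of_norm_bounded h3 fun i => ?_
      rw [norm_mul, norm_pow]
      have : ‖z‖ ^ (i + M) ≤ 1 := pow_le_one₀ (norm_nonneg _) hz.le
      nlinarith [norm_nonneg (a (i + M))]
    have e4 := hf z hz
    rw [← e2, ← e1] at e4
    have e5 := norm_add_le (P.eval z) (∑' i, a (i + M) * z ^ (i + M))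
    linarith
  have hclosed : ∀ z : ℂ, ‖z‖ ≤ 1 → δ' ≤ ‖P.eval z‖ := by
    intro z hz
    have hc : Continuous fun z : ℂ => ‖P.eval z‖ := by fun_prop
    have hcl : IsClosed {z : ℂ | δ' ≤ ‖P.eval z‖} := isClosed_le continuous_const hc
    have hsub : closure (Metric.ball (0 : ℂ) 1) ⊆ {z : ℂ | δ' ≤ ‖P.eval z‖} :=
      hcl.closure_subset_iff.2 fun z hz => hopen z (by simpa using hz)
    rw [closure_ball _ one_ne_zero] at hsub
    exact hsub (by simpa using hz)
  -- normalisation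
  have hmc : (m : ℂ) ≠ 0 := by exact_mod_cast hmpos.ne'
  have hminv : ‖((m : ℂ))⁻¹‖ = m⁻¹ := by
    rw [norm_inv, Complex.norm_real, Real.norm_of_nonneg hmpos.le]
  obtain ⟨y, hy1, hy2⟩ := hC (C (m : ℂ)⁻¹ * P) (by
    rw [l1_C_mul, hP, l1_tr, hminv, ← hm, inv_mul_cancel₀ hmpos.ne']) (by
    intro z hz
    rw [eval_mul, eval_C, norm_mul, hminv]
    have h3 := hclosed z hz
    have h4 : 1 ≤ m⁻¹ := (one_le_inv₀ hmpos).2 hm1
    nlinarith [norm_nonneg (P.eval z)])
  -- comparison of coefficients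
  have hPy : (P : PowerSeries ℂ) * y.1 = PowerSeries.C (m : ℂ) := by
    have h3 : ofPoly (C (m : ℂ)⁻¹ * P) * y = 1 := hy1
    have h4 := congrArg (fun w : W => w.1) h3
    change (ofPoly (C (m : ℂ)⁻¹ * P)).1 * y.1 = (1 : PowerSeries ℂ) at h4
    have h5 : (ofPoly (C (m : ℂ)⁻¹ * P)).1 = PowerSeries.C ((m : ℂ)⁻¹) * (P : PowerSeries ℂ) := by
      ext i
      have := co_ofPoly (C (m : ℂ)⁻¹ * P) i
      change PowerSeries.coeff i (ofPoly (C (m : ℂ)⁻¹ * P)).1 = _ at this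
      rw [this, coeff_C_mul, PowerSeries.coeff_C_mul, Polynomial.coeff_coe]
    rw [h5] at h4
    have h6 : PowerSeries.C (m : ℂ) * PowerSeries.C ((m : ℂ)⁻¹) = 1 := by
      rw [← map_mul, mul_inv_cancel₀ hmc, map_one]
    calc (P : PowerSeries ℂ) * y.1 = (PowerSeries.C (m : ℂ) * PowerSeries.C ((m : ℂ)⁻¹)) *
          ((P : PowerSeries ℂ) * y.1) := by rw [h6, one_mul]
      _ = PowerSeries.C (m : ℂ) * (PowerSeries.C ((m : ℂ)⁻¹) * (P : PowerSeries ℂ) * y.1) := by ring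
      _ = PowerSeries.C (m : ℂ) := by rw [h4, mul_one]
  have hdvd1 : (PowerSeries.X : PowerSeries ℂ) ^ M ∣ (P : PowerSeries ℂ) - PowerSeries.mk a := by
    rw [PowerSeries.X_pow_dvd_iff]
    intro i hi
    rw [map_sub, Polynomial.coeff_coe, hP, coeff_tr, if_pos hi, PowerSeries.coeff_mk, sub_self]
  have hdvd2 : (PowerSeries.X : PowerSeries ℂ) ^ M ∣
      PowerSeries.C (m : ℂ) * PowerSeries.mk b - y.1 := by
    have h3 : PowerSeries.C (m : ℂ) * PowerSeries.mk b - y.1 =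
        ((P : PowerSeries ℂ) - PowerSeries.mk a) * (y.1 * PowerSeries.mk b) := by
      rw [← hPy]
      linear_combination (y.1) * hab
    rw [h3]
    exact Dvd.dvd.mul_right hdvd1 _
  have hcoef : ∀ i < M, (m : ℂ) * b i = y.co i := by
    intro i hi
    have h3 := (PowerSeries.X_pow_dvd_iff.1 hdvd2) i hi
    rw [map_sub, PowerSeries.coeff_C_mul, PowerSeries.coeff_mk, sub_eq_zero] at h3
    exact h3
  have h5 : m * ∑ i ∈ Finset.range T, ‖b i‖ ≤ C₀ := by
    rw [Finset.mul_sum]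
    calc ∑ i ∈ Finset.range T, m * ‖b i‖ = ∑ i ∈ Finset.range T, ‖y.co i‖ := by
          refine Finset.sum_congr rfl fun i hi => ?_
          rw [← hcoef i ((Finset.mem_range.1 hi).trans_le hM2), norm_mul, Complex.norm_real,
            Real.norm_of_nonneg hmpos.le]
      _ ≤ ‖y‖ := sum_co_le y _
      _ ≤ C₀ := hy2
  have h6 : 0 ≤ ∑ i ∈ Finset.range T, ‖b i‖ := Finset.sum_nonneg fun _ _ => norm_nonneg _
  nlinarith

end Pool.Agent.X104.WI
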