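import Mathlib
import Pool.Agent.X104.WI.Ultra

set_option autoImplicit false
set_option linter.unusedSectionVars false

/-! # The lower bound: averages of independent copies of a flat polynomial -/

namespace Pool.Agent.X104.WI

open Filter Topology Polynomial

/-! ### Rudin-Shapiro polynomials -/

/-- the pair of Rudin-Shapiro polynomials -/
noncomputable def RS : ℕ → ℂ[X] × ℂ[X]
  | 0 => (1, 1)
  | m + 1 => ((RS m).1 + X ^ (2 ^ m) * (RS m).2, (RS m).1 - X ^ (2 ^ m) * (RS m).2)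

theorem RS_coeff (m : ℕ) : (∀ i, 2 ^ m ≤ i → (RS m).1.coeff i = 0 ∧ (RS m).2.coeff i = 0) ∧
    ∀ i, i < 2 ^ m → ‖(RS m).1.coeff i‖ = 1 ∧ ‖(RS m).2.coeff i‖ = 1 := by
  induction m with
  | zero =>
    constructor
    · intro i hi
      have : i ≠ 0 := by
        rintro rfl
        simp at hi
      simp [RS, coeff_one, this]
    · intro i hi
      have : i = 0 := by simpa using hi
      subst this
      simp [RS]
  | succ m ih =>
    obtain ⟨h1, h2⟩ := ih
    have hp : 2 ^ (m + 1) = 2 ^ m + 2 ^ m := by ring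
    constructor
    · intro i hi
      have hi' : 2 ^ m ≤ i := by omega
      have e : (X ^ (2 ^ m) * (RS m).2).coeff i = (RS m).2.coeff (i - 2 ^ m) := by
        rw [coeff_X_pow_mul', if_pos hi']
      simp only [RS, coeff_add, coeff_sub, e]
      rw [(h1 i hi').1, (h1 (i - 2 ^ m) (by omega)).2]
      simp
    · intro i hi
      by_cases hi' : 2 ^ m ≤ i
      · have e : (X ^ (2 ^ m) * (RS m).2).coeff i = (RS m).2.coeff (i - 2 ^ m) := by
          rw [coeff_X_pow_mul', if_pos hi']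
        simp only [RS, coeff_add, coeff_sub, e]
        rw [(h1 i hi').1, zero_add, zero_sub, norm_neg, (h2 (i - 2 ^ m) (by omega)).2]
        simp
      · have e : (X ^ (2 ^ m) * (RS m).2).coeff i = 0 := by
          rw [coeff_X_pow_mul', if_neg hi']
        simp only [RS, coeff_add, coeff_sub, e]
        rw [add_zero, sub_zero, (h2 i (by omega)).1]
        simp

theorem RS_sup (m : ℕ) {z : ℂ} (hz : ‖z‖ ≤ 1) :
    ‖(RS m).1.eval z‖ ^ 2 + ‖(RS m).2.eval z‖ ^ 2 ≤ 2 ^ (m + 1) := by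
  induction m with
  | zero => simp [RS]; norm_num
  | succ m ih =>
    simp only [RS, eval_add, eval_sub, eval_mul, eval_pow, eval_X]
    have h := parallelogram_law_with_norm ℝ ((RS m).1.eval z) (z ^ 2 ^ m * (RS m).2.eval z)
    have h2 : ‖z ^ 2 ^ m * (RS m).2.eval z‖ ^ 2 ≤ ‖(RS m).2.eval z‖ ^ 2 := by
      rw [norm_mul, norm_pow, mul_pow]
      have : (‖z‖ ^ 2 ^ m) ^ 2 ≤ 1 := pow_le_one₀ (by positivity) (pow_le_one₀ (norm_nonneg _) hz)
      nlinarith [sq_nonneg ‖(RS m).2.eval z‖]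
    have h3 : (2 : ℝ) ^ (m + 1 + 1) = 2 * 2 ^ (m + 1) := by ring
    nlinarith

/-- the flat polynomial `X R_m / 2^m` -/
noncomputable def gp (m : ℕ) : ℂ[X] := C ((2 : ℂ) ^ m)⁻¹ * (X * (RS m).1)

theorem gp_zero (m : ℕ) : (gp m).coeff 0 = 0 := by
  simp [gp]

theorem l1_gp (m : ℕ) : l1 (gp m) = 1 := by
  obtain ⟨h1, h2⟩ := RS_coeff m
  have hc : ∀ i, (gp m).coeff (i + 1) = ((2 : ℂ) ^ m)⁻¹ * (RS m).1.coeff i := by
    intro i
    rw [gp, coeff_C_mul, coeff_X_mul]
  rw [l1_eq_sum (S := Finset.range (2 ^ m + 1)), Finset.sum_range_succ', gp_zero, norm_zero,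
    add_zero]
  · have : ∀ i ∈ Finset.range (2 ^ m), ‖(gp m).coeff (i + 1)‖ = ((2 : ℝ) ^ m)⁻¹ := by
      intro i hi
      rw [hc, norm_mul, (h2 i (Finset.mem_range.1 hi)).1]
      simp
    rw [Finset.sum_congr rfl this, Finset.sum_const, Finset.card_range, nsmul_eq_mul]
    push_cast
    field_simp
  · intro i hi
    rw [mem_support_iff] at hi
    rw [Finset.mem_range]
    cases i with
    | zero => positivity
    | succ i =>
      by_contra h
      rw [hc, (h1 i (by omega)).1, mul_zero] at hi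
      exact hi rfl

theorem gp_sup (m : ℕ) {z : ℂ} (hz : ‖z‖ ≤ 1) : ‖(gp m).eval z‖ ^ 2 ≤ 2 * (1 / 2) ^ m := by
  rw [gp, eval_mul, eval_C, eval_mul, eval_X, norm_mul, norm_mul, norm_inv, norm_pow]
  have h1 := RS_sup m hz
  have h2 : ‖(RS m).1.eval z‖ ^ 2 ≤ 2 ^ (m + 1) := by
    nlinarith [sq_nonneg ‖(RS m).2.eval z‖]
  have h3 : ‖(2 : ℂ)‖ = 2 := by simp
  rw [h3]
  have h4 : (‖z‖ * ‖(RS m).1.eval z‖) ^ 2 ≤ 2 ^ (m + 1) := by
    rw [mul_pow]
    have : ‖z‖ ^ 2 ≤ 1 := pow_le_one₀ (norm_nonneg _) hz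
    nlinarith [sq_nonneg ‖(RS m).1.eval z‖]
  rw [mul_pow]
  calc (((2 : ℝ) ^ m)⁻¹) ^ 2 * (‖z‖ * ‖(RS m).1.eval z‖) ^ 2
      ≤ (((2 : ℝ) ^ m)⁻¹) ^ 2 * 2 ^ (m + 1) := by gcongr
    _ = 2 * (1 / 2) ^ m := by
      have e : (1 / 2 : ℝ) ^ m = ((2 : ℝ) ^ m)⁻¹ := by rw [one_div, inv_pow]
      rw [e]
      field_simp
      ring

theorem exists_flat {ε : ℝ} (hε : 0 < ε) : ∃ g : ℂ[X], g.coeff 0 = 0 ∧ l1 g = 1 ∧
    ∀ z : ℂ, ‖z‖ ≤ 1 → ‖g.eval z‖ ≤ ε := by
  obtain ⟨m, hm⟩ := exists_pow_lt_of_lt_one (by positivity : 0 < ε ^ 2 / 2)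
    (by norm_num : (1 / 2 : ℝ) < 1)
  refine ⟨gp m, gp_zero m, l1_gp m, fun z hz => ?_⟩
  have h := gp_sup m hz
  exact le_of_sq_le_sq (by linarith) hε.le

/-! ### The functional -/

/-- the functional with values `lam n` on monomials -/
noncomputable def Lam (lam : ℕ → ℂ) : ℂ[X] →ₗ[ℂ] ℂ :=
  Polynomial.lsum fun n => (LinearMap.mulRight ℂ (lam n))

theorem Lam_monomial (lam : ℕ → ℂ) (n : ℕ) (a : ℂ) : Lam lam (monomial n a) = a * lam n := by
  simp [Lam, Polynomial.lsum_apply, Polynomial.sum_monomial_index]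

theorem norm_Lam_le {lam : ℕ → ℂ} (h : ∀ n, ‖lam n‖ ≤ 1) (p : ℂ[X]) : ‖Lam lam p‖ ≤ l1 p := by
  have e : Lam lam p = ∑ i ∈ p.support, p.coeff i * lam i := by
    simp [Lam, Polynomial.lsum_apply, Polynomial.sum]
  rw [e, l1]
  refine (norm_sum_le _ _).trans (Finset.sum_le_sum fun i _ => ?_)
  rw [norm_mul]
  nlinarith [norm_nonneg (p.coeff i), h i]

/-! ### Digits -/

theorem digit_sum {B : ℕ} (hB : 0 < B) (j : ℕ) : ∀ (K : ℕ) (f : ℕ → ℕ), (∀ i, f i < B) → j < K →
    (∑ i ∈ Finset.range K, f i * B ^ i) / B ^ j % B = f j := by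
  induction j with
  | zero =>
    intro K f hf hK
    obtain ⟨K, rfl⟩ : ∃ K', K = K' + 1 := ⟨K - 1, by omega⟩
    rw [Finset.sum_range_succ', pow_zero, Nat.div_one]
    have : ∑ k ∈ Finset.range K, f (k + 1) * B ^ (k + 1) =
        B * ∑ k ∈ Finset.range K, f (k + 1) * B ^ k := by
      rw [Finset.mul_sum]
      refine Finset.sum_congr rfl fun k _ => ?_
      ring
    rw [this]
    simp [Nat.mod_eq_of_lt (hf 0)]
  | succ j ih =>
    intro K f hf hK
    obtain ⟨K, rfl⟩ : ∃ K', K = K' + 1 := ⟨K - 1, by omega⟩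
    rw [Finset.sum_range_succ', pow_zero, mul_one]
    have : ∑ k ∈ Finset.range K, f (k + 1) * B ^ (k + 1) =
        B * ∑ k ∈ Finset.range K, f (k + 1) * B ^ k := by
      rw [Finset.mul_sum]
      refine Finset.sum_congr rfl fun k _ => ?_
      ring
    rw [this, pow_succ', ← Nat.div_div_eq_div_mul]
    have h2 : (B * ∑ k ∈ Finset.range K, f (k + 1) * B ^ k + f 0) / B =
        ∑ k ∈ Finset.range K, f (k + 1) * B ^ k := by
      rw [Nat.mul_add_div hB, Nat.div_eq_of_lt (hf 0), add_zero]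
    rw [h2]
    exact ih K (fun i => f (i + 1)) (fun i => hf (i + 1)) (by omega)

section Copies

variable (g : ℂ[X])

/-- unimodular weights -/
noncomputable def sg (a : ℕ) : ℂ :=
  if g.coeff a = 0 then 1 else (starRingEnd ℂ) (g.coeff a) / ‖g.coeff a‖

theorem norm_sg (a : ℕ) : ‖sg g a‖ = 1 := by
  unfold sg
  split_ifs with h
  · simp
  · rw [norm_div, RCLike.norm_conj, Complex.norm_real, norm_norm,
      div_self (norm_ne_zero_iff.2 h)]

theorem coeff_mul_sg (a : ℕ) : g.coeff a * sg g a = ‖g.coeff a‖ := by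
  unfold sg
  split_ifs with h
  · simp [h]
  · have h1 : (‖g.coeff a‖ : ℂ) ≠ 0 := by exact_mod_cast norm_ne_zero_iff.2 h
    rw [← mul_div_assoc, Complex.mul_conj, Complex.normSq_eq_norm_sq]
    push_cast
    field_simp

/-- weights on the integers, through the digits in base `B` -/
noncomputable def lamd (B K : ℕ) (n : ℕ) : ℂ := ∏ k : Fin K, sg g (n / B ^ (k : ℕ) % B)

theorem norm_lamd (B K n : ℕ) : ‖lamd g B K n‖ ≤ 1 := by
  unfold lamd
  rw [norm_prod]
  simp [norm_sg]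

theorem lamd_word (hg0 : g.coeff 0 = 0) {B K m : ℕ} (hB : 0 < B) {w : Fin m → Fin K}
    (hw : Function.Injective w) {a : Fin m → ℕ} (ha : ∀ i, a i < B) :
    lamd g B K (∑ i, a i * B ^ (w i : ℕ)) = ∏ i, sg g (a i) := by
  classical
  set f : ℕ → ℕ := fun j => ∑ i, if ((w i : ℕ) = j) then a i else 0 with hf
  have hfw : ∀ i, f (w i) = a i := by
    intro i
    simp only [hf]
    rw [Finset.sum_eq_single i]
    · simp
    · intro i' _ hi'
      rw [if_neg]
      intro h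
      exact hi' (hw (Fin.ext h))
    · intro h
      exact absurd (Finset.mem_univ i) h
  have hf0 : ∀ j, (∀ i, (w i : ℕ) ≠ j) → f j = 0 := by
    intro j hj
    simp only [hf]
    exact Finset.sum_eq_zero fun i _ => if_neg (hj i)
  have hfB : ∀ j, f j < B := by
    intro j
    by_cases h : ∃ i, (w i : ℕ) = j
    · obtain ⟨i, rfl⟩ := h
      rw [hfw]; exact ha i
    · push Not at h
      rw [hf0 j h]; exact hB
  have hsum : ∑ i, a i * B ^ (w i : ℕ) = ∑ j ∈ Finset.range K, f j * B ^ j := by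
    simp only [hf]
    simp_rw [Finset.sum_mul]
    rw [Finset.sum_comm]
    refine Finset.sum_congr rfl fun i _ => ?_
    rw [Finset.sum_eq_single (w i : ℕ)]
    · simp
    · intro j _ hj
      rw [if_neg (fun h => hj h.symm), zero_mul]
    · intro h
      exact absurd (Finset.mem_range.2 (w i).2) h
  unfold lamd
  rw [hsum]
  have h1 : ∀ k : Fin K, (∑ j ∈ Finset.range K, f j * B ^ j) / B ^ (k : ℕ) % B = f k := fun k =>
    digit_sum hB k K f hfB k.2
  simp_rw [h1]
  rw [← Finset.prod_subset (Finset.subset_univ (Finset.univ.image w))]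
  · rw [Finset.prod_image (fun i _ i' _ h => hw h)]
    refine Finset.prod_congr rfl fun i _ => ?_
    rw [hfw]
  · intro k _ hk
    rw [hf0 k, sg, if_pos hg0]
    intro i hi
    apply hk
    rw [Finset.mem_image]
    exact ⟨i, Finset.mem_univ _, Fin.ext hi⟩

theorem expand_eq (q : ℕ) : expand ℂ q g = ∑ a ∈ g.support, monomial (a * q) (g.coeff a) := by
  rw [expand_eq_sum, Polynomial.sum]
  refine Finset.sum_congr rfl fun a _ => ?_
  rw [← pow_mul, mul_comm q a, C_mul_X_pow_eq_monomial]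

theorem prod_monomial {m : ℕ} (e : Fin m → ℕ) (c : Fin m → ℂ) :
    ∏ i, (monomial (e i) (c i) : ℂ[X]) = monomial (∑ i, e i) (∏ i, c i) := by
  classical
  induction (Finset.univ : Finset (Fin m)) using Finset.induction_on with
  | empty => simp
  | insert a s ha ih =>
    rw [Finset.prod_insert ha, Finset.sum_insert ha, Finset.prod_insert ha, ih,
      monomial_mul_monomial]

theorem Lam_word (hg0 : g.coeff 0 = 0) (hg1 : l1 g = 1) {B K m : ℕ} (hB : g.natDegree < B)
    {w : Fin m → Fin K} (hw : Function.Injective w) :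
    Lam (lamd g B K) (∏ i, expand ℂ (B ^ (w i : ℕ)) g) = 1 := by
  have hB0 : 0 < B := by omega
  simp_rw [expand_eq]
  rw [Finset.prod_univ_sum, map_sum]
  have h1 : ∀ p ∈ Fintype.piFinset (fun _ : Fin m => g.support),
      Lam (lamd g B K) (∏ i, monomial (p i * B ^ (w i : ℕ)) (g.coeff (p i))) =
      ∏ i, (g.coeff (p i) * sg g (p i)) := by
    intro p hp
    rw [prod_monomial, Lam_monomial, lamd_word g hg0 hB0 hw, Finset.prod_mul_distrib]
    intro i
    have := Fintype.mem_piFinset.1 hp i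
    exact (le_natDegree_of_mem_supp _ this).trans_lt hB
  rw [Finset.sum_congr rfl h1]
  have h2 := Finset.prod_univ_sum (fun _ : Fin m => g.support) (fun _ a => g.coeff a * sg g a)
  rw [← h2]
  apply Finset.prod_eq_one
  intro i _
  simp_rw [coeff_mul_sg]
  rw [← Complex.ofReal_sum]
  have : ∑ a ∈ g.support, ‖g.coeff a‖ = 1 := hg1
  rw [this]
  simp

theorem l1_mul_le (p q : ℂ[X]) : l1 (p * q) ≤ l1 p * l1 q := by
  rw [← norm_ofPoly, ← norm_ofPoly, ← norm_ofPoly, map_mul]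
  exact norm_mul_le _ _

theorem l1_prod_le {m : ℕ} (f : Fin m → ℂ[X]) (hf : ∀ i, l1 (f i) ≤ 1) : l1 (∏ i, f i) ≤ 1 := by
  classical
  induction (Finset.univ : Finset (Fin m)) using Finset.induction_on with
  | empty =>
    rw [Finset.prod_empty]
    have := l1_X_pow 0
    rw [pow_zero] at this
    exact this.le
  | insert a s ha ih =>
    rw [Finset.prod_insert ha]
    refine (l1_mul_le _ _).trans ?_
    have h1 := hf a
    have h2 := Finset.sum_nonneg (s := (∏ x ∈ s, f x).support)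
      (f := fun i => ‖(∏ x ∈ s, f x).coeff i‖) fun _ _ => norm_nonneg _
    have h3 : 0 ≤ l1 (∏ x ∈ s, f x) := h2
    nlinarith

theorem l1_sum_le {ι : Type} (s : Finset ι) (f : ι → ℂ[X]) : l1 (∑ i ∈ s, f i) ≤ ∑ i ∈ s, l1 (f i) := by
  rw [← norm_ofPoly, map_sum]
  refine (norm_sum_le _ _).trans (le_of_eq ?_)
  refine Finset.sum_congr rfl fun i _ => ?_
  rw [norm_ofPoly]

theorem l1_monomial_le (n : ℕ) (a : ℂ) : l1 (monomial n a) ≤ ‖a‖ := by
  rw [l1_eq_sum (S := {n})]
  · simp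
  · exact support_monomial_subset _ _

theorem l1_expand_le (hg1 : l1 g = 1) (q : ℕ) : l1 (expand ℂ q g) ≤ 1 := by
  rw [expand_eq, ← hg1]
  refine (l1_sum_le _ _).trans ?_
  exact Finset.sum_le_sum fun a _ => l1_monomial_le _ _

/-- the average of `K` independent copies -/
noncomputable def avg (B K : ℕ) : ℂ[X] := C ((K : ℂ)⁻¹) * ∑ k : Fin K, expand ℂ (B ^ (k : ℕ)) g

theorem avg_pow (B K m : ℕ) : avg g B K ^ m = C (((K : ℂ)⁻¹) ^ m) *
    ∑ w : Fin m → Fin K, ∏ i, expand ℂ (B ^ (w i : ℕ)) g := by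
  unfold avg
  rw [mul_pow, ← C_pow]
  congr 1
  have h2 : (∑ k : Fin K, expand ℂ (B ^ (k : ℕ)) g) ^ m =
      ∏ _i : Fin m, ∑ k : Fin K, expand ℂ (B ^ (k : ℕ)) g := by
    rw [Finset.prod_const]
    simp
  rw [h2, Finset.prod_univ_sum, Fintype.piFinset_univ]

theorem l1_avg_pow (hg0 : g.coeff 0 = 0) (hg1 : l1 g = 1) {B K m : ℕ} (hB : g.natDegree < B)
    (hK : 0 < K) : 2 * (K.descFactorial m : ℝ) / K ^ m - 1 ≤ l1 (avg g B K ^ m) := by
  classical
  have hK' : (0 : ℝ) < K := by exact_mod_cast hK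
  refine le_trans ?_ (norm_Lam_le (norm_lamd g B K) _)
  rw [avg_pow, ← smul_eq_C_mul, map_smul, map_sum, smul_eq_mul, norm_mul, norm_pow, norm_inv]
  have hcard : (Finset.univ.filter (fun w : Fin m → Fin K => Function.Injective w)).card =
      K.descFactorial m := by
    rw [← Fintype.card_subtype, Fintype.card_congr (Equiv.subtypeInjectiveEquivEmbedding _ _),
      Fintype.card_embedding_eq]
    simp
  have hcard2 : ((Finset.univ.filter (fun w : Fin m → Fin K => ¬ Function.Injective w)).card : ℝ) =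
      K ^ m - K.descFactorial m := by
    have h1 := Finset.card_filter_add_card_filter_not (s := (Finset.univ : Finset (Fin m → Fin K)))
      (fun w => Function.Injective w)
    rw [hcard] at h1
    have h2 : (Finset.univ : Finset (Fin m → Fin K)).card = K ^ m := by simp
    rw [h2] at h1
    have h3 : ((K.descFactorial m : ℕ) : ℝ) +
        ((Finset.univ.filter (fun w : Fin m → Fin K => ¬ Function.Injective w)).card : ℝ) =
        K ^ m := by exact_mod_cast h1
    linarith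
  have hsplit : ∑ w : Fin m → Fin K, Lam (lamd g B K) (∏ i, expand ℂ (B ^ (w i : ℕ)) g) =
      (K.descFactorial m : ℂ) +
      ∑ w ∈ Finset.univ.filter (fun w : Fin m → Fin K => ¬ Function.Injective w),
        Lam (lamd g B K) (∏ i, expand ℂ (B ^ (w i : ℕ)) g) := by
    rw [← Finset.sum_filter_add_sum_filter_not Finset.univ
      (fun w : Fin m → Fin K => Function.Injective w)]
    congr 1
    rw [Finset.sum_congr rfl (fun w hw => Lam_word g hg0 hg1 hB (Finset.mem_filter.1 hw).2),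
      Finset.sum_const, hcard]
    simp
  have hrest : ‖∑ w ∈ Finset.univ.filter (fun w : Fin m → Fin K => ¬ Function.Injective w),
        Lam (lamd g B K) (∏ i, expand ℂ (B ^ (w i : ℕ)) g)‖ ≤ K ^ m - K.descFactorial m := by
    rw [← hcard2]
    refine (norm_sum_le _ _).trans ?_
    have : ∀ w ∈ Finset.univ.filter (fun w : Fin m → Fin K => ¬ Function.Injective w),
        ‖Lam (lamd g B K) (∏ i, expand ℂ (B ^ (w i : ℕ)) g)‖ ≤ 1 := fun w _ =>
      (norm_Lam_le (norm_lamd g B K) _).trans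
        (l1_prod_le _ fun i => l1_expand_le g hg1 _)
    refine (Finset.sum_le_sum this).trans ?_
    simp
  have hlow : 2 * (K.descFactorial m : ℝ) - K ^ m ≤
      ‖∑ w : Fin m → Fin K, Lam (lamd g B K) (∏ i, expand ℂ (B ^ (w i : ℕ)) g)‖ := by
    rw [hsplit]
    set R := ∑ w ∈ Finset.univ.filter (fun w : Fin m → Fin K => ¬ Function.Injective w),
        Lam (lamd g B K) (∏ i, expand ℂ (B ^ (w i : ℕ)) g) with hR
    have h1 := norm_sub_norm_le (K.descFactorial m : ℂ) (-R)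
    rw [sub_neg_eq_add, norm_neg] at h1
    have h2 : ‖(K.descFactorial m : ℂ)‖ = K.descFactorial m := by simp
    rw [h2] at h1
    linarith
  have h3 : 2 * (K.descFactorial m : ℝ) / K ^ m - 1 =
      ‖(K : ℂ)‖⁻¹ ^ m * (2 * (K.descFactorial m : ℝ) - K ^ m) := by
    rw [Complex.norm_natCast, inv_pow]
    field_simp
  rw [h3]
  exact mul_le_mul_of_nonneg_left hlow (by positivity)

theorem l1_avg (hg0 : g.coeff 0 = 0) (hg1 : l1 g = 1) {B K : ℕ} (hB : g.natDegree < B)
    (hK : 0 < K) : l1 (avg g B K) = 1 := by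
  have hK' : (0 : ℝ) < K := by exact_mod_cast hK
  apply le_antisymm
  · unfold avg
    refine (l1_mul_le _ _).trans ?_
    have h1 : l1 (C ((K : ℂ)⁻¹)) ≤ (K : ℝ)⁻¹ := by
      have := l1_monomial_le 0 ((K : ℂ)⁻¹)
      rw [norm_inv, Complex.norm_natCast] at this
      exact this
    have h2 : l1 (∑ k : Fin K, expand ℂ (B ^ (k : ℕ)) g) ≤ K := by
      refine (l1_sum_le _ _).trans ?_
      refine (Finset.sum_le_sum fun k _ => l1_expand_le g hg1 _).trans ?_
      simp
    calc l1 (C ((K : ℂ)⁻¹)) * l1 (∑ k : Fin K, expand ℂ (B ^ (k : ℕ)) g) ≤ (K : ℝ)⁻¹ * K :=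
          mul_le_mul h1 h2 (Finset.sum_nonneg fun _ _ => norm_nonneg _) (by positivity)
      _ = 1 := by field_simp
  · have h := l1_avg_pow g hg0 hg1 (m := 1) hB hK
    rw [pow_one, Nat.descFactorial_one, pow_one, mul_div_assoc, div_self hK'.ne'] at h
    linarith

theorem avg_coeff_zero (hg0 : g.coeff 0 = 0) {B K : ℕ} (hB : 0 < B) : (avg g B K).coeff 0 = 0 := by
  unfold avg
  rw [coeff_C_mul, finsetSum_coeff]
  have : ∀ k : Fin K, (expand ℂ (B ^ (k : ℕ)) g).coeff 0 = 0 := by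
    intro k
    have h0 : 0 < B ^ (k : ℕ) := by positivity
    have := coeff_expand_mul' (R := ℂ) h0 g 0
    rw [mul_zero] at this
    rw [this, hg0]
  simp [this]

theorem avg_sup {ε : ℝ} (hg : ∀ z : ℂ, ‖z‖ ≤ 1 → ‖g.eval z‖ ≤ ε) {B K : ℕ} (hK : 0 < K) {z : ℂ}
    (hz : ‖z‖ ≤ 1) : ‖(avg g B K).eval z‖ ≤ ε := by
  unfold avg
  have hK' : (0 : ℝ) < K := by exact_mod_cast hK
  rw [eval_mul, eval_C, norm_mul, norm_inv, Complex.norm_natCast, eval_finsetSum]
  have h1 : ‖∑ k : Fin K, (expand ℂ (B ^ (k : ℕ)) g).eval z‖ ≤ K * ε := by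
    refine (norm_sum_le _ _).trans ?_
    have : ∀ k ∈ (Finset.univ : Finset (Fin K)), ‖(expand ℂ (B ^ (k : ℕ)) g).eval z‖ ≤ ε := by
      intro k _
      rw [expand_eval]
      apply hg
      rw [norm_pow]
      exact pow_le_one₀ (norm_nonneg _) hz
    refine (Finset.sum_le_sum this).trans ?_
    simp
  calc (K : ℝ)⁻¹ * ‖∑ k : Fin K, (expand ℂ (B ^ (k : ℕ)) g).eval z‖ ≤ (K : ℝ)⁻¹ * (K * ε) := by
        gcongr
    _ = ε := by field_simp

end Copies

end Pool.Agent.X104.WI
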