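import Mathlib
import Pool.Agent.X104.WI.Low
import Pool.Agent.X104.WI.Ext

set_option autoImplicit false
set_option linter.unusedSectionVars false

/-! # The lower bound: norm control fails below one half -/

namespace Pool.Agent.X104.WI

open Filter Topology Polynomial

theorem l1_one_sub {q : ℂ[X]} (hq : q.coeff 0 = 0) (c : ℂ) :
    l1 (1 - C c * q) = 1 + ‖c‖ * l1 q := by
  classical
  have h0 : (0 : ℕ) ∉ q.support := by
    rw [mem_support_iff]; simpa using hq
  rw [l1_eq_sum (S := insert 0 q.support), Finset.sum_insert h0]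
  · congr 1
    · simp [hq]
    · rw [l1, Finset.mul_sum]
      refine Finset.sum_congr rfl fun i hi => ?_
      have hi0 : i ≠ 0 := fun h => h0 (h ▸ hi)
      rw [coeff_sub, coeff_one, if_neg hi0, coeff_C_mul, zero_sub, norm_neg, norm_mul]
  · intro i hi
    rw [Finset.mem_insert]
    by_cases hi0 : i = 0
    · exact Or.inl hi0
    · right
      rw [mem_support_iff, coeff_sub, coeff_one, if_neg hi0, coeff_C_mul, zero_sub, neg_ne_zero] at hi
      exact mem_support_iff.2 (right_ne_zero_of_mul hi)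

theorem tendsto_desc (m : ℕ) :
    Tendsto (fun n : ℕ => 2 * ((n + 1).descFactorial m : ℝ) / ((n + 1 : ℕ) : ℝ) ^ m - 1) atTop
      (𝓝 1) := by
  have h1 : Tendsto (fun n : ℕ => ((n + 1).descFactorial m : ℝ) / ((n + 1 : ℕ) : ℝ) ^ m) atTop
      (𝓝 1) := by
    have hlow : Tendsto (fun n : ℕ => (1 - (m : ℝ) / ((n + 1 : ℕ) : ℝ)) ^ m) atTop (𝓝 1) := by
      have : Tendsto (fun n : ℕ => (m : ℝ) / ((n + 1 : ℕ) : ℝ)) atTop (𝓝 0) :=
        (tendsto_const_div_atTop_nhds_zero_nat (m : ℝ)).comp (tendsto_add_atTop_nat 1)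
      have h2 := ((tendsto_const_nhds (x := (1 : ℝ))).sub this).pow m
      simpa using h2
    refine tendsto_of_tendsto_of_tendsto_of_le_of_le' hlow tendsto_const_nhds ?_ ?_
    · filter_upwards [eventually_ge_atTop m] with n hn
      have h3 := Nat.pow_sub_le_descFactorial (n + 1) m
      have h4 : ((n + 1 - m : ℕ) : ℝ) ^ m ≤ ((n + 1).descFactorial m : ℝ) := by
        have h5 : (n + 1 - m) ^ m ≤ (n + 1).descFactorial m :=
          (Nat.pow_le_pow_left (by omega) m).trans h3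
        exact_mod_cast h5
      rw [le_div_iff₀ (by positivity), ← mul_pow]
      refine le_trans (le_of_eq ?_) h4
      congr 1
      rw [Nat.cast_sub (by omega)]
      push_cast
      field_simp
    · filter_upwards with n
      rw [div_le_one (by positivity)]
      exact_mod_cast Nat.descFactorial_le_pow (n + 1) m
  have h2 := (h1.const_mul 2).sub (tendsto_const_nhds (x := (1 : ℝ)))
  have e : (2 : ℝ) * 1 - 1 = 1 := by norm_num
  rw [e] at h2
  refine h2.congr fun n => ?_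
  ring

instance : Nontrivial AA := ⟨⟨0, 1, fun h => by
  have h1 := congrArg (fun x : AA => ‖x 0‖) h
  simp at h1⟩⟩

theorem ofPoly_C (c : ℂ) : ofPoly (C c) = algebraMap ℂ W c := ofPoly.commutes c

/-- **Failure of the norm control below one half.** -/
theorem low_poly {ε : ℝ} (hε : 0 < ε) (K : ℝ) : ∃ p : ℂ[X], l1 p = 1 ∧
    (∀ z : ℂ, ‖z‖ ≤ 1 → 1 / 2 - ε ≤ ‖p.eval z‖) ∧
    ∀ y : W, ofPoly p * y = 1 → K < ‖y‖ := by
  obtain ⟨g, hg0, hg1, hg2⟩ := exists_flat (show (0 : ℝ) < 2 * ε by linarith)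
  set B : ℕ := g.natDegree + 1 with hB
  have hB1 : g.natDegree < B := by omega
  have hB0 : 0 < B := by omega
  set x : AA := mk (fun n => ofPoly (avg g B (n + 1))) 1 (fun n => by
    rw [norm_ofPoly, l1_avg g hg0 hg1 hB1 (Nat.succ_pos n)]) with hx
  have hpow : ∀ m : ℕ, 1 ≤ ‖x ^ m‖ := by
    intro m
    refine le_of_tendsto (tendsto_desc m) ?_
    filter_upwards with n
    refine (l1_avg_pow g hg0 hg1 (m := m) hB1 (Nat.succ_pos n)).trans ?_
    have h1 := (x ^ m).norm_coe_le_norm n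
    refine le_trans (le_of_eq ?_) h1
    have h2 : (x ^ m) n = ofPoly (avg g B (n + 1) ^ m) := by
      rw [map_pow]
      rfl
    rw [h2, norm_ofPoly]
  have hrad : 1 ≤ spectralRadius ℂ x := by
    refine ge_of_tendsto (spectrum.pow_nnnorm_pow_one_div_tendsto_nhds_spectralRadius x) ?_
    filter_upwards with m
    have h1 : (1 : ENNReal) ≤ (‖x ^ m‖₊ : ENNReal) := by
      have : (1 : NNReal) ≤ ‖x ^ m‖₊ := hpow m
      exact_mod_cast this
    calc (1 : ENNReal) = 1 ^ (1 / m : ℝ) := by simp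
      _ ≤ _ := ENNReal.rpow_le_rpow h1 (by positivity)
  obtain ⟨z, hz1, hz2⟩ := spectrum.exists_nnnorm_eq_spectralRadius x
  have hzn : 1 ≤ ‖z‖ := by
    rw [← hz2] at hrad
    exact_mod_cast hrad
  have hx1 : ‖x‖ ≤ 1 := norm_le_of zero_le_one fun n => by
    rw [hx, mk_apply, norm_ofPoly, l1_avg g hg0 hg1 hB1 (Nat.succ_pos n)]
  have hzn' : ‖z‖ = 1 := le_antisymm ((spectrum.norm_le_norm_of_mem hz1).trans hx1) hzn
  have hz0 : z ≠ 0 := by
    rintro rfl
    simp at hzn'
  have hnu : ¬ IsUnit (algebraMap ℂ AA z - x) := spectrum.mem_iff.1 hz1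
  by_contra hcon
  push Not at hcon
  set p : ℕ → ℂ[X] := fun n => C (1 / 2 : ℂ) * (1 - C z⁻¹ * avg g B (n + 1)) with hp
  have hp1 : ∀ n, l1 (p n) = 1 := by
    intro n
    rw [hp]
    simp only
    rw [l1_C_mul, l1_one_sub (avg_coeff_zero g hg0 hB0), l1_avg g hg0 hg1 hB1 (Nat.succ_pos n),
      norm_inv, hzn']
    norm_num
  have hp2 : ∀ n, ∀ w : ℂ, ‖w‖ ≤ 1 → 1 / 2 - ε ≤ ‖(p n).eval w‖ := by
    intro n w hw
    rw [hp]
    simp only
    rw [eval_mul, eval_C, norm_mul, eval_sub, eval_one, eval_mul, eval_C]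
    have h1 := avg_sup g hg2 (B := B) (K := n + 1) (Nat.succ_pos n) hw
    have h2 := norm_sub_norm_le (1 : ℂ) (z⁻¹ * (avg g B (n + 1)).eval w)
    rw [norm_one, norm_mul, norm_inv, hzn', inv_one, one_mul] at h2
    have h3 : ‖(1 / 2 : ℂ)‖ = 1 / 2 := by norm_num
    rw [h3]
    linarith
  choose y hy1 hy2 using fun n => hcon (p n) (hp1 n) (hp2 n)
  apply hnu
  set Y : AA := mk y K hy2 with hY
  have hmul : (algebraMap ℂ AA z - x) * (algebraMap ℂ AA (1 / 2 * z⁻¹) * Y) = 1 := by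
    ext1 n
    have h1 : (algebraMap ℂ AA z - x) n = algebraMap ℂ W z - ofPoly (avg g B (n + 1)) := rfl
    have h2 : (algebraMap ℂ AA (1 / 2 * z⁻¹) * Y) n = algebraMap ℂ W (1 / 2 * z⁻¹) * y n := rfl
    have h0 : (1 : AA) n = 1 := rfl
    rw [BoundedContinuousFunction.mul_apply, h1, h2, h0, ← hy1 n]
    have h3 : ofPoly (p n) = algebraMap ℂ W (1 / 2) *
        (1 - algebraMap ℂ W z⁻¹ * ofPoly (avg g B (n + 1))) := by
      rw [hp]
      simp only
      rw [map_mul, map_sub, map_one, map_mul, ofPoly_C, ofPoly_C]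
    rw [h3]
    have h4 : algebraMap ℂ W z * algebraMap ℂ W z⁻¹ = 1 := by
      rw [← map_mul, mul_inv_cancel₀ hz0, map_one]
    rw [map_mul]
    linear_combination (algebraMap ℂ W (1 / 2) * y n) * h4
  exact IsUnit.of_mul_eq_one _ hmul

end Pool.Agent.X104.WI
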